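import Mathlib

set_option autoImplicit false

namespace Pool.Agent.W85.Leh

open Finset

/-- The reciprocal as a monoid homomorphism. -/
noncomputable def rec : ℕ →* ℝ where
  toFun m := (m : ℝ)⁻¹
  map_one' := by simp
  map_mul' a b := by push_cast; rw [mul_inv]

/-- Sum of reciprocals of numbers with all prime factors in `S`. -/
theorem sum_inv_le (S F : Finset ℕ) (hS : ∀ q ∈ S, q.Prime)
    (hF : ∀ m ∈ F, m ≠ 0 ∧ m.primeFactors ⊆ S) :
    ∑ m ∈ F, ((m : ℝ))⁻¹ ≤ ∏ q ∈ S, (1 - (q : ℝ)⁻¹)⁻¹ := by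
  have h := (EulerProduct.summable_and_hasSum_factoredNumbers_prod_filter_prime_geometric
    (f := rec) (fun {p} hp => by
      have h1 : (1 : ℝ) < p := by exact_mod_cast hp.one_lt
      change ‖((p : ℝ))⁻¹‖ < 1
      rw [norm_inv, Real.norm_natCast]
      exact inv_lt_one_of_one_lt₀ h1) S).2
  have hfil : (S.filter (fun p => p.Prime)) = S := Finset.filter_true_of_mem hS
  rw [hfil] at h
  have h2 := sum_le_hasSum (F.subtype (fun m => m ∈ Nat.factoredNumbers S))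
    (fun i _ => by change (0:ℝ) ≤ ((i : ℕ) : ℝ)⁻¹; positivity) h
  have h3 : ∑ i ∈ F.subtype (fun m => m ∈ Nat.factoredNumbers S), rec (i : ℕ)
      = ∑ m ∈ F, ((m : ℝ))⁻¹ := by
    rw [Finset.sum_subtype_eq_sum_filter (f := fun m : ℕ => rec m)]
    rw [Finset.filter_true_of_mem]
    · rfl
    · intro m hm
      rw [Nat.mem_factoredNumbers_iff_primeFactors_subset]
      exact hF m hm
  rw [h3] at h2
  exact h2

/-- Even numbers only: half of the bound. -/
theorem sum_inv_even_le (S F : Finset ℕ) (hS : ∀ q ∈ S, q.Prime)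
    (hF : ∀ m ∈ F, m ≠ 0 ∧ 2 ∣ m ∧ m.primeFactors ⊆ S) :
    ∑ m ∈ F, ((m : ℝ))⁻¹ ≤ (∏ q ∈ S, (1 - (q : ℝ)⁻¹)⁻¹) / 2 := by
  have h := sum_inv_le S (F.image (fun m => m / 2)) hS (by
    intro m hm
    rw [Finset.mem_image] at hm
    obtain ⟨a, ha, rfl⟩ := hm
    obtain ⟨h0, h2, h3⟩ := hF a ha
    obtain ⟨b, rfl⟩ := h2
    have hb : 2 * b / 2 = b := by omega
    rw [hb]
    refine ⟨by rintro rfl; simp at h0, fun p hp => h3 ?_⟩
    rw [Nat.mem_primeFactors] at hp ⊢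
    exact ⟨hp.1, hp.2.1.mul_left 2, h0⟩)
  rw [Finset.sum_image] at h
  · have h4 : ∑ m ∈ F, (((m / 2 : ℕ) : ℝ))⁻¹ = 2 * ∑ m ∈ F, ((m : ℝ))⁻¹ := by
      rw [Finset.mul_sum]
      apply Finset.sum_congr rfl
      intro m hm
      obtain ⟨h0, ⟨b, rfl⟩, h3⟩ := hF m hm
      have hb : 2 * b / 2 = b := by omega
      rw [hb]
      push_cast
      rw [mul_inv]
      ring
    rw [h4] at h
    linarith
  · intro x hx y hy hxy
    obtain ⟨-, ⟨b, rfl⟩, -⟩ := hF x hx
    obtain ⟨-, ⟨c, rfl⟩, -⟩ := hF y hy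
    have hxy' : 2 * b / 2 = 2 * c / 2 := hxy
    omega

/-- Elementary product inequality. -/
theorem prod_mul_le {ι : Type*} (s : Finset ι) (x : ι → ℝ) (hx : ∀ i ∈ s, 0 ≤ x i) :
    (∏ i ∈ s, (1 + x i)) * (1 - ∑ i ∈ s, x i) ≤ 1 := by
  classical
  induction s using Finset.induction_on with
  | empty => simp
  | insert a s ha ih =>
    rw [Finset.prod_insert ha, Finset.sum_insert ha]
    have h1 := ih (fun i hi => hx i (Finset.mem_insert_of_mem hi))
    have h2 : 0 ≤ x a := hx a (Finset.mem_insert_self _ _)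
    have h3 : 0 ≤ ∏ i ∈ s, (1 + x i) := Finset.prod_nonneg fun i hi => by
      have := hx i (Finset.mem_insert_of_mem hi); linarith
    have h4 : 0 ≤ ∑ i ∈ s, x i := Finset.sum_nonneg fun i hi =>
      hx i (Finset.mem_insert_of_mem hi)
    have h5 : 0 ≤ (∏ i ∈ s, (1 + x i)) * (x a * (∑ i ∈ s, x i) + x a ^ 2) := by positivity
    nlinarith

/-- Exponential version. -/
theorem prod_le_exp {ι : Type*} (s : Finset ι) (x : ι → ℝ) (hx : ∀ i ∈ s, 0 ≤ x i) :
    (∏ i ∈ s, (1 + x i)) ≤ Real.exp (∑ i ∈ s, x i) := by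
  rw [Real.exp_sum]
  apply Finset.prod_le_prod
  · intro i hi; have := hx i hi; linarith
  · intro i hi; have := Real.add_one_le_exp (x i); linarith

/-- The ratio `n / φ(n)`. -/
theorem ratio (n : ℕ) (hn : 0 < n) :
    (n : ℝ) = n.totient * ∏ p ∈ n.primeFactors, (1 + ((p : ℝ) - 1)⁻¹) := by
  have h := Nat.totient_eq_mul_prod_factors n
  have h2 : (n.totient : ℝ) = n * ∏ p ∈ n.primeFactors, (1 - (p : ℝ)⁻¹) := by
    have h' := congrArg (fun x : ℚ => (x : ℝ)) h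
    push_cast at h'
    exact h'
  rw [h2, mul_assoc, ← Finset.prod_mul_distrib]
  have h3 : ∏ p ∈ n.primeFactors, ((1 - (p : ℝ)⁻¹) * (1 + ((p : ℝ) - 1)⁻¹)) = 1 := by
    apply Finset.prod_eq_one
    intro p hp
    have hp2 : (2 : ℝ) ≤ p := by exact_mod_cast (Nat.prime_of_mem_primeFactors hp).two_le
    have e1 : (p : ℝ) ≠ 0 := by linarith
    have e2 : (p : ℝ) - 1 ≠ 0 := by intro h; linarith
    field_simp
    ring
  rw [h3, mul_one]

end Pool.Agent.W85.Leh
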