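import Pool.Agent.W85.Leh.Small

set_option autoImplicit false

namespace Pool.Agent.W85.Leh

open Finset

def M0 : List ℕ := [2, 4, 6, 8, 12, 16, 18, 24, 32, 36, 48, 54, 64, 72, 96, 108, 128, 144, 162,
  192, 216, 256, 288, 324, 384, 432, 486]

def L0 : List ℕ := [5, 7, 13, 17, 19, 37, 73, 97, 109, 163, 193, 257, 433, 487]

theorem M0_spec : ∀ m ∈ M0, m ≠ 0 ∧ m % 2 = 0 ∧ 6 ^ 8 % m = 0 ∧
    ((m + 1) ∈ L0 ∨ m + 1 = 3 ∨ ∃ d ∈ List.range 23, 2 ≤ d ∧ d < m + 1 ∧ (m + 1) % d = 0) := by
  decide +kernel

theorem big_r (r n : ℕ) (hr : r.Prime) (h79 : 79 ≤ r) (hn : 1 < n) (hc : ¬ n.Prime)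
    (h : n.totient ∣ n - 1) (hS : (n - 1).primeFactors ⊆ {2, 3, r}) (h3 : 3 ∣ n - 1) : False := by
  obtain ⟨k, hk2, hk, hlt, hD, heven⟩ := lehmer n hn hc h
  have h2r : (2 : ℕ) ≠ r := by omega
  have h3r : (3 : ℕ) ≠ r := by omega
  have hM0n : M0.Nodup := by decide +kernel
  have hL0n : L0.Nodup := by decide +kernel
  have hcore := core {2, 3, r} n.primeFactors M0.toFinset L0.toFinset
    (by
      intro q hq
      simp only [Finset.mem_insert, Finset.mem_singleton] at hq
      rcases hq with rfl | rfl | rfl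
      · exact Nat.prime_two
      · exact Nat.prime_three
      · exact hr)
    (fun p hp => ⟨(hD p hp).1, (hD p hp).2.1, (hD p hp).2.2.1, (hD p hp).2.2.2.trans hS⟩)
    (by
      intro m hm
      rw [List.mem_toFinset] at hm
      obtain ⟨h0, h2, hdv, _⟩ := M0_spec m hm
      refine ⟨h0, Nat.dvd_of_mod_eq_zero h2, pf_sub r m hr ?_⟩
      rw [mul_pow]
      exact (Nat.dvd_of_mod_eq_zero hdv).mul_right _)
    (by
      intro p hp
      rw [List.mem_toFinset] at hp
      have h1 : ∀ p ∈ L0, 1 < p := by decide +kernel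
      exact h1 p hp)
    (by
      intro p hp hpM
      rw [List.mem_toFinset] at hpM ⊢
      have hpp := (hD p hp).1
      have hpn := Nat.dvd_of_mem_primeFactors hp
      have hp1 := hpp.one_lt
      have hp3 : p ≠ 3 := fun e => not_both n p hn hpp hpn (e ▸ h3)
      have hpe : p - 1 + 1 = p := by omega
      obtain ⟨_, _, _, h4⟩ := M0_spec _ hpM
      rw [hpe] at h4
      rcases h4 with h4 | h4 | ⟨d, _, hd2, hdp, hdm⟩
      · exact h4
      · exact absurd h4 hp3
      · exfalso
        have := (Nat.dvd_prime hpp).1 (Nat.dvd_of_mod_eq_zero hdm)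
        omega)
    (31321 / 808704) (by norm_num)
    (by
      rw [Finset.prod_insert (by simp [h2r]), Finset.prod_insert (by simp [h3r]),
        Finset.prod_singleton, List.sum_toFinset _ hM0n]
      have hrr : (79 : ℝ) ≤ r := by exact_mod_cast h79
      have e : ((1 - ((2 : ℕ) : ℝ)⁻¹)⁻¹ * ((1 - ((3 : ℕ) : ℝ)⁻¹)⁻¹ * (1 - (r : ℝ)⁻¹)⁻¹)) / 2 =
          3 * r / (2 * (r - 1)) := by
        have e1 : (r : ℝ) - 1 ≠ 0 := by intro h; linarith
        have e2 : (r : ℝ) ≠ 0 := by intro h; linarith
        have e3 : (1 - (r : ℝ)⁻¹) = (r - 1) / r := by field_simp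
        rw [e3]
        push_cast
        field_simp
        norm_num
      rw [e]
      have e4 : (3 * r / (2 * (r - 1)) : ℝ) ≤ 3 * 79 / (2 * 78) := by
        rw [div_le_div_iff₀ (by linarith) (by norm_num)]
        linarith
      have e5 : (M0.map (fun m : ℕ => ((m : ℝ))⁻¹)).sum = 3 * 79 / (2 * 78) - 31321 / 808704 := by
        unfold M0
        simp only [List.map_cons, List.map_nil, List.sum_cons, List.sum_nil]
        norm_num
      rw [e5]
      linarith)
  rw [List.prod_toFinset _ hL0n] at hcore
  have e6 : (L0.map (fun p : ℕ => (1 + ((p : ℝ) - 1)⁻¹))).prod / (1 - 31321 / 808704) < 2 := by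
    unfold L0
    simp only [List.map_cons, List.map_nil, List.prod_cons, List.prod_nil]
    norm_num
  have hk2' : (2 : ℝ) ≤ k := by exact_mod_cast hk2
  linarith

theorem chk5 : checkAll 5 = true := by decide +kernel
theorem chk7 : checkAll 7 = true := by decide +kernel
theorem chk11 : checkAll 11 = true := by decide +kernel
theorem chk13 : checkAll 13 = true := by decide +kernel
theorem chk17 : checkAll 17 = true := by decide +kernel
theorem chk19 : checkAll 19 = true := by decide +kernel
theorem chk23 : checkAll 23 = true := by decide +kernel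
theorem chk29 : checkAll 29 = true := by decide +kernel
theorem chk31 : checkAll 31 = true := by decide +kernel
theorem chk37 : checkAll 37 = true := by decide +kernel
theorem chk41 : checkAll 41 = true := by decide +kernel
theorem chk43 : checkAll 43 = true := by decide +kernel
theorem chk47 : checkAll 47 = true := by decide +kernel
theorem chk53 : checkAll 53 = true := by decide +kernel
theorem chk59 : checkAll 59 = true := by decide +kernel
theorem chk61 : checkAll 61 = true := by decide +kernel
theorem chk67 : checkAll 67 = true := by decide +kernel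
theorem chk71 : checkAll 71 = true := by decide +kernel
theorem chk73 : checkAll 73 = true := by decide +kernel

theorem chk_lt (r : ℕ) (hr : r.Prime) (h5 : 5 ≤ r) (h79 : r < 79) : checkAll r = true := by
  have h : r ∈ [5, 7, 11, 13, 17, 19, 23, 29, 31, 37, 41, 43, 47, 53, 59, 61, 67, 71, 73] := by
    by_contra hcon
    have hall : ∀ m ∈ List.range 79, 5 ≤ m →
        m ∉ [5, 7, 11, 13, 17, 19, 23, 29, 31, 37, 41, 43, 47, 53, 59, 61, 67, 71, 73] →
        ∃ d ∈ List.range 10, 2 ≤ d ∧ d < m ∧ m % d = 0 := by decide +kernel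
    obtain ⟨d, _, h2, h3, h4⟩ := hall r (List.mem_range.2 h79) h5 hcon
    have := (Nat.dvd_prime hr).1 (Nat.dvd_of_mod_eq_zero h4)
    omega
  simp only [List.mem_cons, List.not_mem_nil, or_false] at h
  rcases h with h | h | h | h | h | h | h | h | h | h | h | h | h | h | h | h | h | h | h <;>
    subst h
  · exact chk5
  · exact chk7
  · exact chk11
  · exact chk13
  · exact chk17
  · exact chk19
  · exact chk23
  · exact chk29
  · exact chk31
  · exact chk37
  · exact chk41
  · exact chk43
  · exact chk47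
  · exact chk53
  · exact chk59
  · exact chk61
  · exact chk67
  · exact chk71
  · exact chk73

/-- If `3 ∣ n - 1` then `n - 1` has at least four prime factors. -/
theorem four_of_three_dvd (n : ℕ) (hn : 1 < n) (hc : ¬ n.Prime) (h : n.totient ∣ n - 1)
    (h3 : 3 ∣ n - 1) : 4 ≤ (n - 1).primeFactors.card := by
  by_contra hcon
  have hn1 : n - 1 ≠ 0 := by omega
  obtain ⟨k, hk2, hk, hlt, hD, heven⟩ := lehmer n hn hc h
  have m2 : 2 ∈ (n - 1).primeFactors := Nat.mem_primeFactors.2 ⟨Nat.prime_two, heven, hn1⟩
  have m3 : 3 ∈ (n - 1).primeFactors := Nat.mem_primeFactors.2 ⟨Nat.prime_three, h3, hn1⟩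
  by_cases hex : ∃ r ∈ (n - 1).primeFactors, r ≠ 2 ∧ r ≠ 3
  · obtain ⟨r, hr, hr2, hr3⟩ := hex
    have hrp := Nat.prime_of_mem_primeFactors hr
    have hrn := Nat.dvd_of_mem_primeFactors hr
    have hsub : ({2, 3, r} : Finset ℕ) ⊆ (n - 1).primeFactors := by
      intro q hq
      simp only [Finset.mem_insert, Finset.mem_singleton] at hq
      rcases hq with rfl | rfl | rfl
      · exact m2
      · exact m3
      · exact hr
    have hcard : ({2, 3, r} : Finset ℕ).card = 3 := by
      rw [Finset.card_insert_of_notMem, Finset.card_insert_of_notMem, Finset.card_singleton]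
      · simpa using hr3.symm
      · simp only [Finset.mem_insert, Finset.mem_singleton, not_or]
        exact ⟨by norm_num, hr2.symm⟩
    have heq : ({2, 3, r} : Finset ℕ) = (n - 1).primeFactors :=
      Finset.eq_of_subset_of_card_le hsub (by omega)
    have h5 : 5 ≤ r := by
      have := hrp.two_le
      rcases Nat.lt_or_ge r 5 with h | h
      · interval_cases r
        · exact absurd rfl hr2
        · exact absurd rfl hr3
        · exact absurd hrp (by norm_num)
      · exact h
    rcases Nat.lt_or_ge r 79 with h79 | h79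
    · exact small_r r n hrp h5 hn hc h heq.symm.subset h3 hrn (chk_lt r hrp h5 h79)
    · exact big_r r n hrp h79 hn hc h heq.symm.subset h3
  · refine big_r 79 n (by norm_num) le_rfl hn hc h ?_ h3
    intro q hq
    by_contra hq2
    apply hex
    refine ⟨q, hq, ?_, ?_⟩
    · rintro rfl; simp at hq2
    · rintro rfl; simp at hq2

end Pool.Agent.W85.Leh
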