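import Pool.Agent.W85.Leh.Basic

set_option autoImplicit false

namespace Pool.Agent.W85.Leh

open Finset

/-- Core estimate: few small members and a small tail. -/
theorem core (S D M L : Finset ℕ) (hS : ∀ q ∈ S, q.Prime)
    (hD : ∀ p ∈ D, p.Prime ∧ p - 1 ≠ 0 ∧ 2 ∣ p - 1 ∧ (p - 1).primeFactors ⊆ S)
    (hM : ∀ m ∈ M, m ≠ 0 ∧ 2 ∣ m ∧ m.primeFactors ⊆ S)
    (hL : ∀ p ∈ L, 1 < p)
    (hDM : ∀ p ∈ D, p - 1 ∈ M → p ∈ L) (t : ℝ) (ht : t < 1)
    (htail : (∏ q ∈ S, (1 - (q : ℝ)⁻¹)⁻¹) / 2 - ∑ m ∈ M, ((m : ℝ))⁻¹ ≤ t) :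
    ∏ p ∈ D, (1 + ((p : ℝ) - 1)⁻¹) ≤ (∏ p ∈ L, (1 + ((p : ℝ) - 1)⁻¹)) / (1 - t) := by
  classical
  have hpos : ∀ p ∈ D, 0 ≤ ((p : ℝ) - 1)⁻¹ := by
    intro p hp
    have : (2 : ℝ) ≤ p := by exact_mod_cast (hD p hp).1.two_le
    have : 0 ≤ (p : ℝ) - 1 := by linarith
    positivity
  have hposL : ∀ p ∈ L, 0 ≤ ((p : ℝ) - 1)⁻¹ := by
    intro p hp
    have : (1 : ℝ) < p := by exact_mod_cast (hL p hp)
    have : 0 ≤ (p : ℝ) - 1 := by linarith
    positivity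
  -- split
  have hsplit : ∏ p ∈ D, (1 + ((p : ℝ) - 1)⁻¹) =
      (∏ p ∈ D.filter (· ∈ L), (1 + ((p : ℝ) - 1)⁻¹)) *
      (∏ p ∈ D.filter (fun p => ¬ p ∈ L), (1 + ((p : ℝ) - 1)⁻¹)) :=
    (Finset.prod_filter_mul_prod_filter_not D (· ∈ L) _).symm
  have h1 : ∏ p ∈ D.filter (· ∈ L), (1 + ((p : ℝ) - 1)⁻¹) ≤
      ∏ p ∈ L, (1 + ((p : ℝ) - 1)⁻¹) := by
    have hsub : D.filter (· ∈ L) ⊆ L := fun p hp => (Finset.mem_filter.1 hp).2
    rw [← Finset.prod_sdiff hsub]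
    have g1 : (1 : ℝ) ≤ ∏ p ∈ L \ D.filter (· ∈ L), (1 + ((p : ℝ) - 1)⁻¹) := by
      have g2 : ∏ p ∈ L \ D.filter (· ∈ L), (1 : ℝ) ≤
          ∏ p ∈ L \ D.filter (· ∈ L), (1 + ((p : ℝ) - 1)⁻¹) := by
        apply Finset.prod_le_prod
        · intro p _; exact zero_le_one
        · intro p hp
          have := hposL p (Finset.mem_sdiff.1 hp).1
          linarith
      simpa using g2
    have g3 : 0 ≤ ∏ p ∈ D.filter (· ∈ L), (1 + ((p : ℝ) - 1)⁻¹) :=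
      Finset.prod_nonneg fun p hp => by
        have := hposL p (hsub hp); linarith
    nlinarith
  set D2 := D.filter (fun p => ¬ p ∈ L) with hD2
  have hsum : ∑ p ∈ D2, ((p : ℝ) - 1)⁻¹ ≤ t := by
    have h2 := sum_inv_even_le S (D2.image (fun p => p - 1) ∪ M) hS (by
      intro m hm
      rw [Finset.mem_union, Finset.mem_image] at hm
      rcases hm with ⟨p, hp, rfl⟩ | hm
      · exact (hD p (Finset.mem_filter.1 hp).1).2
      · exact hM m hm)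
    rw [Finset.sum_union, Finset.sum_image] at h2
    · have h3 : ∑ p ∈ D2, (((p - 1 : ℕ) : ℝ))⁻¹ = ∑ p ∈ D2, ((p : ℝ) - 1)⁻¹ := by
        apply Finset.sum_congr rfl
        intro p hp
        have := (hD p (Finset.mem_filter.1 hp).1).1.one_le
        push_cast [this]
        rfl
      rw [h3] at h2
      linarith
    · intro x hx y hy hxy
      have h1 := (hD x (Finset.mem_filter.1 hx).1).1.one_le
      have h2 := (hD y (Finset.mem_filter.1 hy).1).1.one_le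
      have hxy' : x - 1 = y - 1 := hxy
      omega
    · rw [Finset.disjoint_left]
      intro m hm hm'
      rw [Finset.mem_image] at hm
      obtain ⟨p, hp, rfl⟩ := hm
      have h5 := Finset.mem_filter.1 hp
      exact h5.2 (hDM p h5.1 hm')
  have h6 := prod_mul_le D2 (fun p => ((p : ℝ) - 1)⁻¹) (fun p hp => hpos p (Finset.mem_filter.1 hp).1)
  have h7 : 0 ≤ ∏ p ∈ D2, (1 + ((p : ℝ) - 1)⁻¹) := Finset.prod_nonneg fun p hp => by
    have := hpos p (Finset.mem_filter.1 hp).1; linarith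
  have h8 : (∏ p ∈ D2, (1 + ((p : ℝ) - 1)⁻¹)) ≤ 1 / (1 - t) := by
    rw [le_div_iff₀ (by linarith)]
    have : (∏ p ∈ D2, (1 + ((p : ℝ) - 1)⁻¹)) * (1 - t) ≤
        (∏ p ∈ D2, (1 + ((p : ℝ) - 1)⁻¹)) * (1 - ∑ p ∈ D2, ((p : ℝ) - 1)⁻¹) :=
      mul_le_mul_of_nonneg_left (by linarith) h7
    linarith
  rw [hsplit]
  have h9 : 0 ≤ ∏ p ∈ L, (1 + ((p : ℝ) - 1)⁻¹) := Finset.prod_nonneg fun p hp => by
    have := hposL p hp; linarith
  calc _ ≤ (∏ p ∈ L, (1 + ((p : ℝ) - 1)⁻¹)) * (1 / (1 - t)) := mul_le_mul h1 h8 h7 h9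
    _ = _ := by ring

/-- Lehmer data. -/
theorem lehmer (n : ℕ) (hn : 1 < n) (hc : ¬ n.Prime) (h : n.totient ∣ n - 1) :
    ∃ k : ℕ, 2 ≤ k ∧ n - 1 = k * n.totient ∧
      (k : ℝ) < ∏ p ∈ n.primeFactors, (1 + ((p : ℝ) - 1)⁻¹) ∧
      (∀ p ∈ n.primeFactors, p.Prime ∧ p - 1 ≠ 0 ∧ 2 ∣ p - 1 ∧
        (p - 1).primeFactors ⊆ (n - 1).primeFactors) ∧ 2 ∣ n - 1 := by
  obtain ⟨k, hk⟩ := h
  have hn3 : 2 < n := by
    rcases Nat.lt_or_ge 2 n with h | h
    · exact h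
    · exfalso
      have : n = 2 := by omega
      subst this
      exact hc Nat.prime_two
  have hphi : 0 < n.totient := Nat.totient_pos.2 (by omega)
  have hk0 : k ≠ 0 := by
    rintro rfl
    simp at hk
    omega
  have hk1 : k ≠ 1 := by
    rintro rfl
    rw [mul_one] at hk
    exact hc ((Nat.totient_eq_iff_prime (by omega)).1 hk.symm)
  have heven : 2 ∣ n - 1 := by
    rw [hk]
    exact (Nat.totient_even hn3).two_dvd.mul_right k
  refine ⟨k, by omega, by rw [hk, mul_comm], ?_, ?_, heven⟩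
  · have hr := ratio n (by omega)
    have hphi' : (0 : ℝ) < n.totient := by exact_mod_cast hphi
    have h1 : ((n - 1 : ℕ) : ℝ) = (n.totient : ℝ) * k := by rw [hk]; push_cast; ring
    rw [Nat.cast_sub (by omega), Nat.cast_one] at h1
    have h2 : (n.totient : ℝ) * k < n.totient * ∏ p ∈ n.primeFactors, (1 + ((p : ℝ) - 1)⁻¹) := by
      rw [← hr, ← h1]; linarith
    exact lt_of_mul_lt_mul_left h2 hphi'.le
  · intro p hp
    have hpp := Nat.prime_of_mem_primeFactors hp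
    have hpd := Nat.dvd_of_mem_primeFactors hp
    have hd : p - 1 ∣ n - 1 := by
      rw [← Nat.totient_prime hpp]
      exact (Nat.totient_dvd_of_dvd hpd).trans ⟨k, hk⟩
    have hp2 : p ≠ 2 := by
      rintro rfl
      have h3 : 2 ∣ n - (n - 1) := Nat.dvd_sub hpd heven
      have h4 : n - (n - 1) = 1 := by omega
      rw [h4] at h3
      omega
    have hge := hpp.two_le
    refine ⟨hpp, by omega, ?_, Nat.primeFactors_mono hd (by omega)⟩
    have hodd := hpp.odd_of_ne_two hp2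
    obtain ⟨j, hj⟩ := hodd
    exact ⟨j, by omega⟩

/-- A prime divisor of `n` does not divide `n - 1`. -/
theorem not_both (n p : ℕ) (hn : 1 < n) (hp : p.Prime) (h1 : p ∣ n) (h2 : p ∣ n - 1) : False := by
  have h3 : p ∣ n - (n - 1) := Nat.dvd_sub h1 h2
  have h4 : n - (n - 1) = 1 := by omega
  rw [h4] at h3
  exact hp.one_lt.ne' (Nat.dvd_one.1 h3)

end Pool.Agent.W85.Leh
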