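import Pool.Agent.W85.Leh.Three

set_option autoImplicit false

namespace Pool.Agent.W85.Leh

open Finset

theorem sqf (n : ℕ) (hn : 1 < n) (h : n.totient ∣ n - 1) : Squarefree n := by
  rw [Nat.squarefree_iff_prime_squarefree]
  intro p hp hpn
  have h1 : (p * p).totient ∣ n.totient := Nat.totient_dvd_of_dvd hpn
  have h2 : p ∣ (p * p).totient := by
    have e : p * p = p ^ (1 + 1) := by ring
    rw [e, Nat.totient_prime_pow_succ hp, pow_one]
    exact dvd_mul_right p _
  exact not_both n p hn hp ((dvd_mul_right p p).trans hpn) ((h2.trans h1).trans h)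

theorem tot_prod (n : ℕ) (hn : 1 < n) (h : n.totient ∣ n - 1) :
    n.totient = ∏ p ∈ n.primeFactors, (p - 1) := by
  have h1 := Nat.totient_mul_prod_primeFactors n
  rw [Nat.prod_primeFactors_of_squarefree (sqf n hn h), mul_comm] at h1
  exact Nat.eq_of_mul_eq_mul_left (by omega) h1

/-- Residues modulo 3 of the prime factors. -/
theorem mod3 (n p : ℕ) (h : n.totient ∣ n - 1) (h3 : ¬ 3 ∣ n - 1)
    (hp : p.Prime) (hpn : p ∣ n) (hp3 : p ≠ 3) : p % 3 = 2 := by
  have h1 : p - 1 ∣ n - 1 := by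
    rw [← Nat.totient_prime hp]
    exact (Nat.totient_dvd_of_dvd hpn).trans h
  have h2 : p % 3 ≠ 0 := by
    intro h0
    exact hp3 ((Nat.prime_dvd_prime_iff_eq Nat.prime_three hp).1 (Nat.dvd_of_mod_eq_zero h0)).symm
  have h4 : p % 3 ≠ 1 := by
    intro h0
    apply h3
    refine dvd_trans ?_ h1
    have := hp.one_le
    omega
  omega

theorem k_ge_four (n k : ℕ) (hn : 1 < n) (h : n.totient ∣ n - 1) (hk : n - 1 = k * n.totient)
    (hk2 : 2 ≤ k) (h3 : ¬ 3 ∣ n - 1) (h3n : 3 ∣ n) : 4 ≤ k := by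
  have h3m : 3 ∈ n.primeFactors := Nat.mem_primeFactors.2 ⟨Nat.prime_three, h3n, by omega⟩
  have htot := tot_prod n hn h
  have hmod : n.totient % 3 = 2 := by
    rw [htot, ← Finset.mul_prod_erase _ _ h3m]
    have h1 : (∏ p ∈ n.primeFactors.erase 3, (p - 1)) ≡ 1 [MOD 3] := by
      have h5 : ∏ p ∈ n.primeFactors.erase 3, (p - 1) ≡ ∏ p ∈ n.primeFactors.erase 3, 1 [MOD 3] := by
        apply Nat.ModEq.prod
        intro p hp
        have hp1 := Finset.mem_of_mem_erase hp
        have hpp := Nat.prime_of_mem_primeFactors hp1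
        have h6 := mod3 n p h h3 hpp (Nat.dvd_of_mem_primeFactors hp1) (Finset.ne_of_mem_erase hp)
        have := hpp.one_le
        unfold Nat.ModEq
        omega
      simpa using h5
    have h2 : (3 - 1) * (∏ p ∈ n.primeFactors.erase 3, (p - 1)) ≡ 2 * 1 [MOD 3] :=
      Nat.ModEq.mul (by norm_num) h1
    exact h2
  have h4 : (n - 1) % 3 = 2 := by omega
  rw [hk, Nat.mul_mod, hmod] at h4
  have h5 : k % 3 < 3 := Nat.mod_lt _ (by norm_num)
  interval_cases hk3 : k % 3 <;> omega

theorem seven (n : ℕ) (hn : 1 < n) (hc : ¬ n.Prime) (h : n.totient ∣ n - 1)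
    (h3 : ¬ 3 ∣ n - 1) : 7 ≤ (n - 1).primeFactors.card := by
  by_contra hcon
  have hn1 : n - 1 ≠ 0 := by omega
  obtain ⟨k, hk2, hk, hlt, hD, heven⟩ := lehmer n hn hc h
  have m2 : 2 ∈ (n - 1).primeFactors := Nat.mem_primeFactors.2 ⟨Nat.prime_two, heven, hn1⟩
  set S := (n - 1).primeFactors with hSdef
  set D := n.primeFactors with hDdef
  have hSp : ∀ q ∈ S, q.Prime := fun q hq => Nat.prime_of_mem_primeFactors hq
  have hS' : ∀ q ∈ S.erase 2, q.Prime ∧ 5 ≤ q := by
    intro q hq
    have hq1 := Finset.mem_of_mem_erase hq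
    have hq2 := Finset.ne_of_mem_erase hq
    have hqp := hSp q hq1
    refine ⟨hqp, ?_⟩
    have hq3 : q ≠ 3 := by
      rintro rfl
      exact h3 (Nat.dvd_of_mem_primeFactors hq1)
    have h2le := hqp.two_le
    rcases Nat.lt_or_ge q 5 with h5 | h5
    · exfalso
      have : q = 4 := by omega
      subst this
      revert hqp; norm_num
    · exact h5
  have hcard : (S.erase 2).card ≤ 5 := by
    rw [Finset.card_erase_of_mem m2]; omega
  have hprodS : (∏ q ∈ S, (1 - (q : ℝ)⁻¹)⁻¹) / 2 = ∏ q ∈ S.erase 2, (1 - (q : ℝ)⁻¹)⁻¹ := by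
    rw [← Finset.mul_prod_erase S _ m2]
    norm_num
  set D' := (D.erase 3).erase 5 with hD'
  have hsum := sum3 S D' hSp m2 (by
    intro p hp
    have hp5 := Finset.ne_of_mem_erase hp
    have hp4 := Finset.mem_of_mem_erase hp
    have hp3 := Finset.ne_of_mem_erase hp4
    have hpD := Finset.mem_of_mem_erase hp4
    exact ⟨(hD p hpD).1, (hD p hpD).2.1, (hD p hpD).2.2.1, (hD p hpD).2.2.2,
      mod3 n p h h3 (hD p hpD).1 (Nat.dvd_of_mem_primeFactors hpD) hp3, hp5⟩)
  rw [hprodS] at hsum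
  have hexp := prod_le_exp D' (fun p => ((p : ℝ) - 1)⁻¹) (by
    intro p hp
    have hpD := Finset.mem_of_mem_erase (Finset.mem_of_mem_erase hp)
    have : (2 : ℝ) ≤ p := by exact_mod_cast (hD p hpD).1.two_le
    have : 0 ≤ (p : ℝ) - 1 := by linarith
    positivity)
  have hexp2 := hexp.trans (Real.exp_le_exp.2 hsum)
  set g : ℕ → ℝ := fun p => 1 + ((p : ℝ) - 1)⁻¹ with hg
  have hDpos : 0 ≤ ∏ p ∈ D', g p := Finset.prod_nonneg fun p hp => by
    have hpD := Finset.mem_of_mem_erase (Finset.mem_of_mem_erase hp)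
    have : (2 : ℝ) ≤ p := by exact_mod_cast (hD p hpD).1.two_le
    have : 0 ≤ (p : ℝ) - 1 := by linarith
    rw [hg]
    positivity
  -- product without 3
  have hE : ∏ p ∈ D.erase 3, g p < 2 := by
    by_cases h5 : 5 ∈ D.erase 3
    · have h5D := Finset.mem_of_mem_erase h5
      have hT := T7 (S.erase 2) (by
        intro q hq
        refine ⟨(hS' q hq).1, ?_⟩
        have hq5 : q ≠ 5 := by
          rintro rfl
          exact not_both n 5 hn (by norm_num) (Nat.dvd_of_mem_primeFactors h5D)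
            (Nat.dvd_of_mem_primeFactors (Finset.mem_of_mem_erase hq))
        have h6 := (hS' q hq).2
        rcases Nat.lt_or_ge q 7 with h7 | h7
        · exfalso
          have : q = 6 := by omega
          subst this
          have := (hS' 6 hq).1
          revert this; norm_num
        · exact h7) hcard
      rw [← Finset.mul_prod_erase _ _ h5]
      have h8 : ∏ p ∈ D', g p < 8 / 5 := by
        refine lt_of_le_of_lt hexp2 (lt_of_le_of_lt (Real.exp_le_exp.2 ?_) exp_small)
        refine le_trans (mul_le_mul_of_nonneg_left (sub_le_sub_right hT _) (by norm_num)) ?_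
        norm_num
      have h9 : g 5 = 5 / 4 := by rw [hg]; norm_num
      rw [h9]
      linarith
    · have hT := T5 (S.erase 2) hS' hcard
      have e : D.erase 3 = D' := by rw [hD', Finset.erase_eq_of_notMem h5]
      rw [e]
      refine lt_of_le_of_lt hexp2 ?_
      have h10 : Real.exp (2 / 3 * ((∏ q ∈ S.erase 2, (1 - (q : ℝ)⁻¹)⁻¹) - 7 / 8)) <
          Real.exp (Real.log 2) := by
        apply Real.exp_lt_exp.2
        refine lt_of_le_of_lt (mul_le_mul_of_nonneg_left (sub_le_sub_right hT _) (by norm_num)) ?_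
        have := Real.log_two_gt_d9
        norm_num at this ⊢
        linarith
      rwa [Real.exp_log (by norm_num)] at h10
  by_cases h3n : 3 ∈ D
  · have hk4 := k_ge_four n k hn h hk hk2 h3 (Nat.dvd_of_mem_primeFactors h3n)
    have hk4' : (4 : ℝ) ≤ k := by exact_mod_cast hk4
    have hprod : ∏ p ∈ D, g p = g 3 * ∏ p ∈ D.erase 3, g p := (Finset.mul_prod_erase _ _ h3n).symm
    have h9 : g 3 = 3 / 2 := by rw [hg]; norm_num
    rw [h9] at hprod
    have hlt' : (k : ℝ) < ∏ p ∈ D, g p := hlt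
    linarith
  · have hk2' : (2 : ℝ) ≤ k := by exact_mod_cast hk2
    rw [Finset.erase_eq_of_notMem h3n] at hE
    have hlt' : (k : ℝ) < ∏ p ∈ D, g p := hlt
    linarith

end Pool.Agent.W85.Leh
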