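import Pool.Agent.W85.Leh.Checks
import Pool.Agent.W85.Leh.Seven

set_option autoImplicit false

namespace Pool.Agent.W85.Leh

open Finset

theorem four (n : ℕ) (hn : 1 < n) (hc : ¬ n.Prime) (h : n.totient ∣ n - 1) :
    4 ≤ (n - 1).primeFactors.card := by
  by_cases h3 : 3 ∣ n - 1
  · exact four_of_three_dvd n hn hc h h3
  · have := seven n hn hc h h3
    omega

/-- The value of `m / φ(m)` as a product. -/
theorem ratio' (m : ℕ) (hm : 0 < m) :
    (m : ℝ) / m.totient = ∏ q ∈ m.primeFactors, (1 - (q : ℝ)⁻¹)⁻¹ := by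
  have h := Nat.totient_eq_mul_prod_factors m
  have h2 : (m.totient : ℝ) = m * ∏ p ∈ m.primeFactors, (1 - (p : ℝ)⁻¹) := by
    have h' := congrArg (fun x : ℚ => (x : ℝ)) h
    push_cast at h'
    exact h'
  have hm' : (m : ℝ) ≠ 0 := by exact_mod_cast hm.ne'
  rw [h2, Finset.prod_inv_distrib, div_mul_eq_div_div, div_self hm', one_div]

/-- The index inequality. -/
theorem index (n k : ℕ) (hn : 1 < n) (hc : ¬ n.Prime) (h : n - 1 = k * n.totient) :
    2 * Real.log k < ((n - 1 : ℕ) : ℝ) / (n - 1).totient := by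
  obtain ⟨k', hk2, hk, hlt, hD, heven⟩ := lehmer n hn hc ⟨k, by rw [h, mul_comm]⟩
  have hphi : 0 < n.totient := Nat.totient_pos.2 (by omega)
  have hkk : k = k' := Nat.eq_of_mul_eq_mul_right hphi (by rw [← h, ← hk])
  subst hkk
  have hk0 : (0 : ℝ) < k := by
    have : (2 : ℝ) ≤ k := by exact_mod_cast hk2
    linarith
  have hpos : ∀ p ∈ n.primeFactors, 0 ≤ ((p : ℝ) - 1)⁻¹ := by
    intro p hp
    have : (2 : ℝ) ≤ p := by exact_mod_cast (hD p hp).1.two_le
    have : 0 ≤ (p : ℝ) - 1 := by linarith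
    positivity
  have h1 := prod_le_exp n.primeFactors (fun p => ((p : ℝ) - 1)⁻¹) hpos
  have h2 := sum_inv_even_le (n - 1).primeFactors (n.primeFactors.image (fun p => p - 1))
    (fun q hq => Nat.prime_of_mem_primeFactors hq) (by
      intro m hm
      rw [Finset.mem_image] at hm
      obtain ⟨p, hp, rfl⟩ := hm
      exact (hD p hp).2)
  rw [Finset.sum_image] at h2
  · have h3 : ∑ p ∈ n.primeFactors, (((p - 1 : ℕ) : ℝ))⁻¹ =
        ∑ p ∈ n.primeFactors, ((p : ℝ) - 1)⁻¹ := by
      apply Finset.sum_congr rfl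
      intro p hp
      have := (hD p hp).1.one_le
      push_cast [this]
      rfl
    rw [h3, ← ratio' (n - 1) (by omega)] at h2
    have h4 : Real.log k < ∑ p ∈ n.primeFactors, ((p : ℝ) - 1)⁻¹ := by
      rw [Real.log_lt_iff_lt_exp hk0]
      exact lt_of_lt_of_le hlt h1
    linarith
  · intro x hx y hy hxy
    have h1 := (hD x hx).1.one_le
    have h2 := (hD y hy).1.one_le
    have hxy' : x - 1 = y - 1 := hxy
    omega

end Pool.Agent.W85.Leh
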