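import Pool.Agent.W85.Leh.Small

set_option autoImplicit false

namespace Pool.Agent.W85.Leh

open Finset

/-- Even numbers up to `X` dividing `Q ^ e`. -/
def ML (Q e X : ℕ) : List ℕ :=
  (List.range (X + 1)).filter (fun m => m != 0 && m % 2 == 0 && Q ^ e % m == 0)

/-- Test for a divisor below `b`. -/
def compD (b m : ℕ) : Bool :=
  (List.range b).any (fun d => decide (2 ≤ d) && decide (d < m) && m % d == 0)

/-- The numeric check, with bound `num / den` for the total sum. -/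
def numchk (L M : List ℕ) (num den : ℕ) : Bool :=
  decide (L.prod * 1000000000000 <
    2 * (1000000000000 + (M.map (fun m => 1000000000000 / m)).sum
      - (num * 1000000000000 / den + 1)) * (L.map (fun p => p - 1)).prod)

theorem ML_mem (Q e X m : ℕ) (h : m ∈ ML Q e X) : m ≠ 0 ∧ 2 ∣ m ∧ m ∣ Q ^ e := by
  unfold ML at h
  rw [List.mem_filter, List.mem_range] at h
  simp only [Bool.and_eq_true, bne_iff_ne, beq_iff_eq] at h
  exact ⟨h.2.1.1, Nat.dvd_of_mod_eq_zero h.2.1.2, Nat.dvd_of_mod_eq_zero h.2.2⟩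

theorem ML_nodup (Q e X : ℕ) : (ML Q e X).Nodup := List.Nodup.filter _ List.nodup_range

theorem not_compD (b p : ℕ) (hp : p.Prime) : compD b p = false := by
  unfold compD
  rw [List.any_eq_false]
  intro d _ h
  simp only [Bool.and_eq_true, decide_eq_true_eq, beq_iff_eq] at h
  obtain ⟨⟨h1, h2⟩, h3⟩ := h
  have := (Nat.dvd_prime hp).1 (Nat.dvd_of_mod_eq_zero h3)
  omega

theorem arith3 (P Q PL K C t : ℝ) (hK : 0 < K) (hQ : 0 ≤ Q) (hPQ : P * Q = PL)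
    (h1 : PL * K < 2 * C * Q) (hC : C ≤ K * (1 - t)) (ht : t < 1) : P / (1 - t) < 2 := by
  have hP2 : P * K < 2 * C := by
    by_contra hcon
    have h7 : 2 * C * Q ≤ P * K * Q := mul_le_mul_of_nonneg_right (not_lt.1 hcon) hQ
    rw [← hPQ] at h1
    have h8 : P * K * Q = P * Q * K := by ring
    linarith
  have h3 : P * K < 2 * (1 - t) * K := by nlinarith
  have h4 : P < 2 * (1 - t) := lt_of_mul_lt_mul_right h3 hK.le
  rw [div_lt_iff₀ (by linarith)]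
  exact h4

/-- The engine. -/
theorem engine (S D : Finset ℕ) (M L : List ℕ) (num den : ℕ) (hden : 0 < den)
    (hS : ∀ q ∈ S, q.Prime)
    (hD : ∀ p ∈ D, p.Prime ∧ p - 1 ≠ 0 ∧ 2 ∣ p - 1 ∧ (p - 1).primeFactors ⊆ S)
    (hM : ∀ m ∈ M, m ≠ 0 ∧ 2 ∣ m ∧ m.primeFactors ⊆ S)
    (hL : ∀ p ∈ L, 1 < p) (hMn : M.Nodup) (hLn : L.Nodup)
    (hDM : ∀ p ∈ D, p - 1 ∈ M → p ∈ L)
    (hTot : (∏ q ∈ S, (1 - (q : ℝ)⁻¹)⁻¹) / 2 ≤ (num : ℝ) / den)
    (hchk : numchk L M num den = true) :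
    ∏ p ∈ D, (1 + ((p : ℝ) - 1)⁻¹) < 2 := by
  unfold numchk at hchk
  rw [decide_eq_true_eq] at hchk
  generalize hK : (1000000000000 : ℕ) = K at hchk
  have hKpos : (0 : ℝ) < K := by rw [← hK]; norm_num
  clear hK
  generalize hA : (M.map (fun m => K / m)).sum = A at hchk
  generalize hB : num * K / den + 1 = B at hchk
  have hQpos : 0 < K + A - B := by
    rcases Nat.eq_zero_or_pos (K + A - B) with h0 | h0
    · rw [h0] at hchk; simp at hchk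
    · exact h0
  have hCreal : ((K + A - B : ℕ) : ℝ) = (K : ℝ) + A - B := by
    rw [Nat.cast_sub (by omega)]; push_cast; ring
  have hSig2 : ∑ m ∈ M.toFinset, ((m : ℝ))⁻¹ = (M.map (fun m : ℕ => ((m : ℝ))⁻¹)).sum := by
    rw [List.sum_toFinset _ hMn]
  generalize hSig : ∑ m ∈ M.toFinset, ((m : ℝ))⁻¹ = Sig at hSig2
  have hAle : (A : ℝ) ≤ K * Sig := by
    rw [hSig2, ← hA]
    exact list_sum_floor M K (fun m hm => (hM m hm).1)
  have hBge : (K : ℝ) * ((num : ℝ) / den) ≤ B := by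
    have h1 := Nat.lt_mul_div_succ (num * K) hden
    rw [hB] at h1
    have h2 : ((num * K : ℕ) : ℝ) < ((den * B : ℕ) : ℝ) := by exact_mod_cast h1
    push_cast at h2
    have h4 : (0 : ℝ) < den := by exact_mod_cast hden
    rw [← mul_div_assoc, div_le_iff₀ h4]
    nlinarith
  have hCpos : (0 : ℝ) < (K : ℝ) + A - B := by
    rw [← hCreal]; exact_mod_cast hQpos
  have hKt : (K : ℝ) + A - B ≤ K * (1 - ((num : ℝ) / den - Sig)) :=
    arith0 _ _ _ _ _ _ hAle hBge rfl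
  have ht1 : (num : ℝ) / den - Sig < 1 := arith1 _ _ _ hKpos (lt_of_lt_of_le hCpos hKt)
  have hcore := core S D M.toFinset L.toFinset hS hD
    (fun m hm => hM m (List.mem_toFinset.1 hm)) (fun p hp => hL p (List.mem_toFinset.1 hp))
    (fun p hp hpM => List.mem_toFinset.2 (hDM p hp (List.mem_toFinset.1 hpM)))
    ((num : ℝ) / den - Sig) ht1 (by rw [hSig]; linarith)
  rw [List.prod_toFinset _ hLn] at hcore
  have hPQ := list_prod L hL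
  have hcheck2 : ((L.prod : ℕ) : ℝ) * K < 2 * ((K : ℝ) + A - B) * (((L.map (fun p => p - 1)).prod : ℕ) : ℝ) := by
    rw [← hCreal]
    exact_mod_cast hchk
  exact lt_of_le_of_lt hcore
    (arith3 _ _ _ K _ _ hKpos (Nat.cast_nonneg _) hPQ hcheck2 hKt ht1)

theorem pf_sub_list (S : Finset ℕ) (hS : ∀ q ∈ S, q.Prime) (Q e m : ℕ) (hQ : Q = ∏ q ∈ S, q)
    (h : m ∣ Q ^ e) : m.primeFactors ⊆ S := by
  intro p hp
  have hpp := Nat.prime_of_mem_primeFactors hp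
  have h1 : p ∣ Q ^ e := (Nat.dvd_of_mem_primeFactors hp).trans h
  have h2 := hpp.dvd_of_dvd_pow h1
  rw [hQ, hpp.prime.dvd_finsetProd_iff] at h2
  obtain ⟨q, hq, hpq⟩ := h2
  rw [(Nat.prime_dvd_prime_iff_eq hpp (hS q hq)).1 hpq]
  exact hq

theorem prod4 (r s : ℕ) (f : ℕ → ℝ) (h2r : 2 ≠ r) (h3r : 3 ≠ r) (h2s : 2 ≠ s) (h3s : 3 ≠ s)
    (hrs : r ≠ s) : ∏ q ∈ ({2, 3, r, s} : Finset ℕ), f q = f 2 * (f 3 * (f r * f s)) := by
  rw [Finset.prod_insert (by simp [h2r, h2s]), Finset.prod_insert (by simp [h3r, h3s]),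
    Finset.prod_insert (by simp [hrs]), Finset.prod_singleton]

/-- Upper bound for the total sum. -/
theorem tot4 (r s r0 s0 : ℕ) (hr0 : 5 ≤ r0) (hs0 : 5 ≤ s0) (hr : r0 ≤ r) (hs : s0 ≤ s)
    (hrs : r ≠ s) :
    (∏ q ∈ ({2, 3, r, s} : Finset ℕ), (1 - (q : ℝ)⁻¹)⁻¹) / 2 ≤
      ((3 * r0 * s0 : ℕ) : ℝ) / ((2 * (r0 - 1) * (s0 - 1) : ℕ) : ℝ) := by
  rw [prod4 r s (fun q => (1 - (q : ℝ)⁻¹)⁻¹) (by omega) (by omega) (by omega) (by omega) hrs]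
  have e : ∀ a b : ℕ, 5 ≤ a → a ≤ b → (1 - (b : ℝ)⁻¹)⁻¹ ≤ (a : ℝ) / (a - 1) := by
    intro a b ha hab
    have h1 : (5 : ℝ) ≤ a := by exact_mod_cast ha
    have h2 : (a : ℝ) ≤ b := by exact_mod_cast hab
    have h3 : (1 - (b : ℝ)⁻¹)⁻¹ = (b : ℝ) / (b - 1) := by
      have h4 : (b : ℝ) ≠ 0 := by intro h; linarith
      have h5 : (b : ℝ) - 1 ≠ 0 := by intro h; linarith
      have h6 : (1 - (b : ℝ)⁻¹) = (b - 1) / b := by field_simp
      rw [h6, inv_div]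
    rw [h3, div_le_div_iff₀ (by linarith) (by linarith)]
    nlinarith
  have h1 := e r0 r hr0 hr
  have h2 := e s0 s hs0 hs
  have h5r : (5 : ℝ) ≤ r0 := by exact_mod_cast hr0
  have h5s : (5 : ℝ) ≤ s0 := by exact_mod_cast hs0
  have h3 : 0 ≤ (1 - (s : ℝ)⁻¹)⁻¹ := by
    have h7 : (2 : ℝ) ≤ s := by exact_mod_cast (show 2 ≤ s by omega)
    have h8 : (s : ℝ)⁻¹ ≤ 2⁻¹ := inv_anti₀ (by norm_num) h7
    have h9 : (0 : ℝ) < 1 - (s : ℝ)⁻¹ := by linarith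
    have := (inv_pos.2 h9).le
    linarith
  have h4 : (1 - (r : ℝ)⁻¹)⁻¹ * (1 - (s : ℝ)⁻¹)⁻¹ ≤ (r0 : ℝ) / (r0 - 1) * ((s0 : ℝ) / (s0 - 1)) :=
    mul_le_mul h1 h2 h3 (div_nonneg (by linarith) (by linarith))
  have e2 : (((3 * r0 * s0 : ℕ) : ℝ)) / ((2 * (r0 - 1) * (s0 - 1) : ℕ) : ℝ) =
      3 / 2 * ((r0 : ℝ) / (r0 - 1) * ((s0 : ℝ) / (s0 - 1))) := by
    rw [Nat.cast_mul, Nat.cast_mul, Nat.cast_mul, Nat.cast_mul, Nat.cast_sub (by omega),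
      Nat.cast_sub (by omega)]
    have g1 : (r0 : ℝ) - 1 ≠ 0 := by intro h; linarith
    have g2 : (s0 : ℝ) - 1 ≠ 0 := by intro h; linarith
    push_cast
    field_simp
  rw [e2]
  have e3 : ((1 - ((2 : ℕ) : ℝ)⁻¹)⁻¹ * ((1 - ((3 : ℕ) : ℝ)⁻¹)⁻¹ *
      ((1 - (r : ℝ)⁻¹)⁻¹ * (1 - (s : ℝ)⁻¹)⁻¹))) / 2 =
      3 / 2 * ((1 - (r : ℝ)⁻¹)⁻¹ * (1 - (s : ℝ)⁻¹)⁻¹) := by
    norm_num
  rw [e3]
  linarith

end Pool.Agent.W85.Leh
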