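import Pool.Agent.W85.Leh.Pair

set_option autoImplicit false

namespace Pool.Agent.W85.Leh

open Finset

/-- Check for all `s ≥ s0`. -/
def genchk (r s0 : ℕ) : Bool :=
  numchk (((ML (6 * r) 14 10000).map (· + 1)).filter (fun p => !compD 101 p && p != 3 && p != r))
    (ML (6 * r) 14 10000) (3 * r * s0) (2 * (r - 1) * (s0 - 1))

theorem gen_s (r s s0 n : ℕ) (hr : r.Prime) (hs : s.Prime) (h5 : 5 ≤ r) (hrs : r < s)
    (h5s : 5 ≤ s0) (hs0 : s0 ≤ s) (hn : 1 < n) (hc : ¬ n.Prime) (h : n.totient ∣ n - 1)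
    (hS : (n - 1).primeFactors ⊆ {2, 3, r, s}) (h3 : 3 ∣ n - 1) (hrn : r ∣ n - 1)
    (hchk : genchk r s0 = true) : False := by
  obtain ⟨k, hk2, hk, hlt, hD, heven⟩ := lehmer n hn hc h
  have hSp : ∀ q ∈ ({2, 3, r, s} : Finset ℕ), q.Prime := by
    intro q hq
    simp only [Finset.mem_insert, Finset.mem_singleton] at hq
    rcases hq with rfl | rfl | rfl | rfl
    · exact Nat.prime_two
    · exact Nat.prime_three
    · exact hr
    · exact hs
  have hlt2 := engine {2, 3, r, s} n.primeFactors (ML (6 * r) 14 10000)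
    (((ML (6 * r) 14 10000).map (· + 1)).filter (fun p => !compD 101 p && p != 3 && p != r))
    (3 * r * s0) (2 * (r - 1) * (s0 - 1))
    (Nat.mul_pos (Nat.mul_pos (by norm_num) (by omega)) (by omega)) hSp
    (fun p hp => ⟨(hD p hp).1, (hD p hp).2.1, (hD p hp).2.2.1, (hD p hp).2.2.2.trans hS⟩)
    (by
      intro m hm
      obtain ⟨h0, h2, hdv⟩ := ML_mem _ _ _ m hm
      refine ⟨h0, h2, (pf_sub_list {2, 3, r} ?_ (6 * r) 14 m ?_ hdv).trans ?_⟩
      · intro q hq
        simp only [Finset.mem_insert, Finset.mem_singleton] at hq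
        rcases hq with rfl | rfl | rfl
        · exact Nat.prime_two
        · exact Nat.prime_three
        · exact hr
      · rw [Finset.prod_insert (by simp; omega), Finset.prod_insert (by simp; omega),
          Finset.prod_singleton]
        ring
      · intro q hq
        simp only [Finset.mem_insert, Finset.mem_singleton] at hq
        rcases hq with rfl | rfl | rfl <;> simp)
    (by
      intro p hp
      have hp1 := (List.mem_filter.1 hp).1
      rw [List.mem_map] at hp1
      obtain ⟨m, hm, rfl⟩ := hp1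
      have := (ML_mem _ _ _ m hm).1
      omega)
    (ML_nodup _ _ _)
    (by
      apply List.Nodup.filter
      exact (ML_nodup _ _ _).map (fun a b h => by simpa using h))
    (by
      intro p hp hpM
      have hpp := (hD p hp).1
      have hpn := Nat.dvd_of_mem_primeFactors hp
      have hp1 := hpp.one_lt
      have hp3 : p ≠ 3 := fun e => not_both n p hn hpp hpn (e ▸ h3)
      have hpr : p ≠ r := fun e => not_both n p hn hpp hpn (e ▸ hrn)
      rw [List.mem_filter, List.mem_map]
      refine ⟨⟨p - 1, hpM, by omega⟩, ?_⟩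
      rw [not_compD 101 p hpp]
      simp [hp3, hpr])
    (tot4 r s r s0 h5 h5s le_rfl hs0 hrs.ne) hchk
  have hk2' : (2 : ℝ) ≤ k := by exact_mod_cast hk2
  linarith

/-- Quadratic character condition for two extra primes. -/
def cls2 (r s x y z w p : ℕ) : Bool :=
  (2 ^ ((p - 1) / 2 * x) * 3 ^ ((p - 1) / 2 * y) * r ^ ((p - 1) / 2 * z) *
    s ^ ((p - 1) / 2 * w)) % p == (p - 1) ^ ((p - 1) / 2) % p

/-- One class. -/
def pchk (r s : ℕ) (M L : List ℕ) (x y z w : ℕ) : Bool :=
  numchk (L.filter (fun p => cls2 r s x y z w p)) M (3 * r * s) (2 * (r - 1) * (s - 1))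

/-- All classes. -/
def pall (r s : ℕ) (M L : List ℕ) : Bool :=
  (List.range 2).all (fun x => (List.range 2).all (fun y => (List.range 2).all (fun z =>
    (List.range 2).all (fun w => pchk r s M L x y z w))))

def pairchk (r s : ℕ) : Bool :=
  pall r s (ML (6 * r * s) 9 1000)
    (((ML (6 * r * s) 9 1000).map (· + 1)).filter
      (fun p => !compD 32 p && p != 3 && p != r && p != s))

theorem cls2_of (n r s p X Y Z W : ℕ) (hn : 1 < n) (hr : r.Prime) (hs : s.Prime) (hp : p.Prime)
    (hpn : p ∣ n) (hp2 : p ≠ 2) (hp3 : p ≠ 3) (hpr : p ≠ r) (hps : p ≠ s)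
    (hfac : n - 1 = 2 ^ X * 3 ^ Y * r ^ Z * s ^ W) :
    cls2 r s (X % 2) (Y % 2) (Z % 2) (W % 2) p = true := by
  have : Fact p.Prime := ⟨hp⟩
  unfold cls2
  rw [beq_iff_eq]
  apply (ZMod.natCast_eq_natCast_iff' _ _ p).1
  have hodd : (p - 1) / 2 * 2 = p - 1 := by
    obtain ⟨j, hj⟩ := hp.odd_of_ne_two hp2
    omega
  have hne : ∀ q : ℕ, q.Prime → p ≠ q → ((q : ℕ) : ZMod p) ≠ 0 := by
    intro q hq hpq h0
    rw [ZMod.natCast_eq_zero_iff] at h0
    exact hpq ((Nat.prime_dvd_prime_iff_eq hp hq).1 h0)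
  have e2 : ((2 : ℕ) : ZMod p) ≠ 0 := hne 2 Nat.prime_two hp2
  have e3 : ((3 : ℕ) : ZMod p) ≠ 0 := hne 3 Nat.prime_three hp3
  have er : ((r : ℕ) : ZMod p) ≠ 0 := hne r hr hpr
  have es : ((s : ℕ) : ZMod p) ≠ 0 := hne s hs hps
  have hm1 : ((p - 1 : ℕ) : ZMod p) = -1 := by
    rw [Nat.cast_sub hp.one_le]
    simp
  have hn1 : ((n - 1 : ℕ) : ZMod p) = -1 := by
    rw [Nat.cast_sub hn.le, (ZMod.natCast_eq_zero_iff n p).2 hpn]
    simp
  have key : (((2 : ℕ) : ZMod p) ^ X * ((3 : ℕ) : ZMod p) ^ Y * ((r : ℕ) : ZMod p) ^ Z *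
      ((s : ℕ) : ZMod p) ^ W) = -1 := by
    rw [← hn1, hfac]
    push_cast
    ring
  have key2 := congrArg (fun u => u ^ ((p - 1) / 2)) key
  simp only [mul_pow] at key2
  rw [← pow_mul, ← pow_mul, ← pow_mul, ← pow_mul, mul_comm X, mul_comm Y, mul_comm Z, mul_comm W,
    pow_mul, pow_mul, pow_mul, pow_mul, pow_red p _ e2 hodd X, pow_red p _ e3 hodd Y,
    pow_red p _ er hodd Z, pow_red p _ es hodd W] at key2
  rw [Nat.cast_mul, Nat.cast_mul, Nat.cast_mul, Nat.cast_pow, Nat.cast_pow, Nat.cast_pow,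
    Nat.cast_pow, key2, Nat.cast_pow, hm1]

theorem pair_s (r s n : ℕ) (hr : r.Prime) (hs : s.Prime) (h5 : 5 ≤ r) (hrs : r < s)
    (hn : 1 < n) (hc : ¬ n.Prime) (h : n.totient ∣ n - 1)
    (hS : (n - 1).primeFactors ⊆ {2, 3, r, s}) (h3 : 3 ∣ n - 1) (hrn : r ∣ n - 1)
    (hsn : s ∣ n - 1) (hchk : pairchk r s = true) : False := by
  obtain ⟨k, hk2, hk, hlt, hD, heven⟩ := lehmer n hn hc h
  have hn1 : n - 1 ≠ 0 := by omega
  have hSp : ∀ q ∈ ({2, 3, r, s} : Finset ℕ), q.Prime := by
    intro q hq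
    simp only [Finset.mem_insert, Finset.mem_singleton] at hq
    rcases hq with rfl | rfl | rfl | rfl
    · exact Nat.prime_two
    · exact Nat.prime_three
    · exact hr
    · exact hs
  have hprodS : 6 * r * s = ∏ q ∈ ({2, 3, r, s} : Finset ℕ), q := by
    rw [Finset.prod_insert (by simp; omega), Finset.prod_insert (by simp; omega),
      Finset.prod_insert (by simp; omega), Finset.prod_singleton]
    ring
  obtain ⟨X, Y, Z, W, hfac⟩ : ∃ X Y Z W : ℕ, n - 1 = 2 ^ X * 3 ^ Y * r ^ Z * s ^ W := by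
    refine ⟨(n - 1).factorization 2, (n - 1).factorization 3, (n - 1).factorization r,
      (n - 1).factorization s, ?_⟩
    have e := Nat.prod_factorization_pow_eq_self hn1
    rw [Finsupp.prod_of_support_subset _ (s := {2, 3, r, s}) (by simpa using hS) _ (by simp)] at e
    rw [Finset.prod_insert (by simp; omega), Finset.prod_insert (by simp; omega),
      Finset.prod_insert (by simp; omega), Finset.prod_singleton] at e
    rw [mul_assoc, mul_assoc]
    exact e.symm
  have hchk2 : pchk r s (ML (6 * r * s) 9 1000)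
      (((ML (6 * r * s) 9 1000).map (· + 1)).filter
      (fun p => !compD 32 p && p != 3 && p != r && p != s)) (X % 2) (Y % 2) (Z % 2) (W % 2) = true := by
    unfold pairchk pall at hchk
    have h1 := List.all_eq_true.1 hchk (X % 2) (List.mem_range.2 (Nat.mod_lt _ (by norm_num)))
    have h2 := List.all_eq_true.1 h1 (Y % 2) (List.mem_range.2 (Nat.mod_lt _ (by norm_num)))
    have h3 := List.all_eq_true.1 h2 (Z % 2) (List.mem_range.2 (Nat.mod_lt _ (by norm_num)))
    exact List.all_eq_true.1 h3 (W % 2) (List.mem_range.2 (Nat.mod_lt _ (by norm_num)))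
  have hlt2 := engine {2, 3, r, s} n.primeFactors (ML (6 * r * s) 9 1000)
    ((((ML (6 * r * s) 9 1000).map (· + 1)).filter
      (fun p => !compD 32 p && p != 3 && p != r && p != s)).filter
      (fun p => cls2 r s (X % 2) (Y % 2) (Z % 2) (W % 2) p))
    (3 * r * s) (2 * (r - 1) * (s - 1))
    (Nat.mul_pos (Nat.mul_pos (by norm_num) (by omega)) (by omega)) hSp
    (fun p hp => ⟨(hD p hp).1, (hD p hp).2.1, (hD p hp).2.2.1, (hD p hp).2.2.2.trans hS⟩)
    (by
      intro m hm
      obtain ⟨h0, h2, hdv⟩ := ML_mem _ _ _ m hm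
      exact ⟨h0, h2, pf_sub_list {2, 3, r, s} hSp (6 * r * s) 9 m hprodS hdv⟩)
    (by
      intro p hp
      have hp1 := (List.mem_filter.1 (List.mem_filter.1 hp).1).1
      rw [List.mem_map] at hp1
      obtain ⟨m, hm, rfl⟩ := hp1
      have := (ML_mem _ _ _ m hm).1
      omega)
    (ML_nodup _ _ _)
    (by
      apply List.Nodup.filter
      apply List.Nodup.filter
      exact (ML_nodup _ _ _).map (fun a b h => by simpa using h))
    (by
      intro p hp hpM
      have hpp := (hD p hp).1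
      have hpn := Nat.dvd_of_mem_primeFactors hp
      have hp1 := hpp.one_lt
      have hp2 : p ≠ 2 := fun e => not_both n p hn hpp hpn (e ▸ heven)
      have hp3 : p ≠ 3 := fun e => not_both n p hn hpp hpn (e ▸ h3)
      have hpr : p ≠ r := fun e => not_both n p hn hpp hpn (e ▸ hrn)
      have hps : p ≠ s := fun e => not_both n p hn hpp hpn (e ▸ hsn)
      rw [List.mem_filter, List.mem_filter, List.mem_map]
      refine ⟨⟨⟨p - 1, hpM, by omega⟩, ?_⟩, cls2_of n r s p X Y Z W hn hr hs hpp hpn hp2 hp3 hpr hps hfac⟩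
      rw [not_compD 32 p hpp]
      simp [hp3, hpr, hps])
    (tot4 r s r s h5 (by omega) le_rfl le_rfl hrs.ne) hchk2
  have hk2' : (2 : ℝ) ≤ k := by exact_mod_cast hk2
  linarith

/-- Both extra primes large. -/
def bigchk : Bool :=
  numchk (((ML 6 9 1000).map (· + 1)).filter (fun p => !compD 32 p && p != 3))
    (ML 6 9 1000) (3 * 131 * 131) (2 * (131 - 1) * (131 - 1))

theorem big_s (r s n : ℕ) (hr : r.Prime) (hs : s.Prime) (h5 : 131 ≤ r) (hrs : r < s)
    (hn : 1 < n) (hc : ¬ n.Prime) (h : n.totient ∣ n - 1)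
    (hS : (n - 1).primeFactors ⊆ {2, 3, r, s}) (h3 : 3 ∣ n - 1) : False := by
  obtain ⟨k, hk2, hk, hlt, hD, heven⟩ := lehmer n hn hc h
  have hSp : ∀ q ∈ ({2, 3, r, s} : Finset ℕ), q.Prime := by
    intro q hq
    simp only [Finset.mem_insert, Finset.mem_singleton] at hq
    rcases hq with rfl | rfl | rfl | rfl
    · exact Nat.prime_two
    · exact Nat.prime_three
    · exact hr
    · exact hs
  have hbig : bigchk = true := by decide +kernel
  have hlt2 := engine {2, 3, r, s} n.primeFactors (ML 6 9 1000)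
    (((ML 6 9 1000).map (· + 1)).filter (fun p => !compD 32 p && p != 3))
    (3 * 131 * 131) (2 * (131 - 1) * (131 - 1)) (by norm_num) hSp
    (fun p hp => ⟨(hD p hp).1, (hD p hp).2.1, (hD p hp).2.2.1, (hD p hp).2.2.2.trans hS⟩)
    (by
      intro m hm
      obtain ⟨h0, h2, hdv⟩ := ML_mem _ _ _ m hm
      refine ⟨h0, h2, (pf_sub_list {2, 3} ?_ 6 9 m ?_ hdv).trans ?_⟩
      · intro q hq
        simp only [Finset.mem_insert, Finset.mem_singleton] at hq
        rcases hq with rfl | rfl
        · exact Nat.prime_two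
        · exact Nat.prime_three
      · simp
      · intro q hq
        simp only [Finset.mem_insert, Finset.mem_singleton] at hq
        rcases hq with rfl | rfl <;> simp)
    (by
      intro p hp
      have hp1 := (List.mem_filter.1 hp).1
      rw [List.mem_map] at hp1
      obtain ⟨m, hm, rfl⟩ := hp1
      have := (ML_mem _ _ _ m hm).1
      omega)
    (ML_nodup _ _ _)
    (by
      apply List.Nodup.filter
      exact (ML_nodup _ _ _).map (fun a b h => by simpa using h))
    (by
      intro p hp hpM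
      have hpp := (hD p hp).1
      have hpn := Nat.dvd_of_mem_primeFactors hp
      have hp1 := hpp.one_lt
      have hp3 : p ≠ 3 := fun e => not_both n p hn hpp hpn (e ▸ h3)
      rw [List.mem_filter, List.mem_map]
      refine ⟨⟨p - 1, hpM, by omega⟩, ?_⟩
      rw [not_compD 32 p hpp]
      simp [hp3])
    (tot4 r s 131 131 (by norm_num) (by norm_num) h5 (by omega) hrs.ne) hbig
  have hk2' : (2 : ℝ) ≤ k := by exact_mod_cast hk2
  linarith

end Pool.Agent.W85.Leh
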