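import Pool.Agent.W85.Leh.Pair2

set_option autoImplicit false

namespace Pool.Agent.W85.Leh

/-- All prime `s` in a range, other than `11` and `23`, pass the pair check. -/
def rowchk (r a b : ℕ) : Bool :=
  (List.range b).all (fun s => decide (s < a) || decide (s ≤ r) || s == 11 || s == 23 ||
    compD 32 s || pairchk r s)

theorem row_s (r a b s : ℕ) (h : rowchk r a b = true) (hs : s.Prime) (ha : a ≤ s) (hb : s < b)
    (hrs : r < s) (h11 : s ≠ 11) (h23 : s ≠ 23) : pairchk r s = true := by
  have h1 := List.all_eq_true.1 h s (List.mem_range.2 hb)
  have h2 : decide (s < a) = false := by simpa using ha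
  have h3 : decide (s ≤ r) = false := by simpa using hrs
  have h4 : (s == 11) = false := by simpa using h11
  have h5 : (s == 23) = false := by simpa using h23
  simpa only [h2, h3, h4, h5, not_compD 32 s hs, Bool.false_or] using h1

end Pool.Agent.W85.Leh
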