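import Pool.Agent.W85.Leh.Pair3

set_option autoImplicit false

namespace Pool.Agent.W85.Leh

theorem pc1 : ([(5, 59), (7, 29), (13, 29), (17, 29), (19, 29), (29, 719), (31, 61), (37, 41), (41, 97), (43, 71), (47, 67), (53, 79), (59, 61), (61, 67)] : List (ℕ × ℕ)).all (fun x => genchk x.1 x.2) = true := by
  decide +kernel

end Pool.Agent.W85.Leh
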