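import Pool.Agent.W85.Leh.Pair3

set_option autoImplicit false

namespace Pool.Agent.W85.Leh

theorem pc4 : rowchk 29 340 719 = true := by decide +kernel

end Pool.Agent.W85.Leh
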