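import Pool.Agent.W85.Leh.Pair3

set_option autoImplicit false

namespace Pool.Agent.W85.Leh

theorem pc5 : ([(5, 59), (7, 29), (13, 29), (17, 29), (19, 29), (31, 61), (37, 41), (41, 97), (43, 71), (47, 67), (53, 79), (59, 61), (61, 67), (67, 71), (71, 73), (73, 79), (79, 83), (83, 89), (89, 97), (97, 101), (101, 103), (103, 107), (107, 109), (109, 113), (113, 127), (127, 131)] : List (ℕ × ℕ)).all (fun x => rowchk x.1 0 x.2) = true := by
  decide +kernel

end Pool.Agent.W85.Leh
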