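import Pool.Agent.W85.Leh.Final
import Pool.Agent.W85.Leh.PairC1
import Pool.Agent.W85.Leh.PairC2
import Pool.Agent.W85.Leh.PairC3
import Pool.Agent.W85.Leh.PairC4
import Pool.Agent.W85.Leh.PairC5

set_option autoImplicit false

namespace Pool.Agent.W85.Leh

/-- The thresholds. -/
def thr : List (ℕ × ℕ) :=
  [(5, 59), (7, 29), (13, 29), (17, 29), (19, 29), (29, 719), (31, 61), (37, 41), (41, 97), (43, 71), (47, 67), (53, 79), (59, 61), (61, 67), (67, 71), (71, 73), (73, 79), (79, 83), (83, 89), (89, 97), (97, 101), (101, 103), (103, 107), (107, 109), (109, 113), (113, 127), (127, 131)]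

theorem thr_gen : ∀ x ∈ thr, genchk x.1 x.2 = true := by
  intro x hx
  have h1 := List.all_eq_true.1 pc1
  have h2 := List.all_eq_true.1 pc2
  simp only [thr, List.mem_cons, List.not_mem_nil, or_false] at hx
  rcases hx with rfl | rfl | rfl | rfl | rfl | rfl | rfl | rfl | rfl | rfl | rfl | rfl | rfl | rfl | rfl | rfl | rfl | rfl | rfl | rfl | rfl | rfl | rfl | rfl | rfl | rfl | rfl
  · exact h1 _ (by simp)
  · exact h1 _ (by simp)
  · exact h1 _ (by simp)
  · exact h1 _ (by simp)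
  · exact h1 _ (by simp)
  · exact h1 _ (by simp)
  · exact h1 _ (by simp)
  · exact h1 _ (by simp)
  · exact h1 _ (by simp)
  · exact h1 _ (by simp)
  · exact h1 _ (by simp)
  · exact h1 _ (by simp)
  · exact h1 _ (by simp)
  · exact h1 _ (by simp)
  · exact h2 _ (by simp)
  · exact h2 _ (by simp)
  · exact h2 _ (by simp)
  · exact h2 _ (by simp)
  · exact h2 _ (by simp)
  · exact h2 _ (by simp)
  · exact h2 _ (by simp)
  · exact h2 _ (by simp)
  · exact h2 _ (by simp)
  · exact h2 _ (by simp)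
  · exact h2 _ (by simp)
  · exact h2 _ (by simp)
  · exact h2 _ (by simp)

theorem thr_row (r s0 s : ℕ) (hx : (r, s0) ∈ thr) (hs : s.Prime) (hb : s < s0) (hrs : r < s)
    (h11 : s ≠ 11) (h23 : s ≠ 23) : pairchk r s = true := by
  by_cases h29 : r = 29
  · subst h29
    have hb' : s < 719 := by
      have : s0 ≤ 719 := by
        have h : ∀ x ∈ thr, x.2 ≤ 719 := by decide +kernel
        exact h _ hx
      omega
    rcases Nat.lt_or_ge s 340 with h | h
    · exact row_s 29 0 340 s pc3 hs (by omega) h hrs h11 h23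
    · exact row_s 29 340 719 s pc4 hs h hb' hrs h11 h23
  · have h : ∀ x ∈ thr, x.1 ≠ 29 → x ∈ ([(5, 59), (7, 29), (13, 29), (17, 29), (19, 29), (31, 61), (37, 41), (41, 97), (43, 71), (47, 67), (53, 79), (59, 61), (61, 67), (67, 71), (71, 73), (73, 79), (79, 83), (83, 89), (89, 97), (97, 101), (101, 103), (103, 107), (107, 109), (109, 113), (113, 127), (127, 131)] : List (ℕ × ℕ)) := by decide +kernel
    have h1 := List.all_eq_true.1 pc5 (r, s0) (h _ hx h29)
    exact row_s r 0 s0 s h1 hs (by omega) hb hrs h11 h23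

theorem thr_ex (r : ℕ) (hr : r.Prime) (h5 : 5 ≤ r) (h131 : r < 131) (h11 : r ≠ 11)
    (h23 : r ≠ 23) : ∃ s0, (r, s0) ∈ thr := by
  have h : ∀ m < 131, m < 5 ∨ m = 11 ∨ m = 23 ∨ compD 12 m = true ∨
      (thr.any (fun x => x.1 == m)) = true := by
    decide +kernel
  rcases h r h131 with h | h | h | h | h
  · omega
  · exact absurd h h11
  · exact absurd h h23
  · rw [not_compD 12 r hr] at h
    exact absurd h (by decide)
  · rw [List.any_eq_true] at h
    obtain ⟨x, hx, h2⟩ := h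
    rw [beq_iff_eq] at h2
    exact ⟨x.2, by rw [← h2]; exact hx⟩

theorem thr_ge : ∀ x ∈ thr, 5 ≤ x.2 := by decide +kernel

/-- Both extra primes avoid `11` and `23`: impossible. -/
theorem pair_final (r s n : ℕ) (hr : r.Prime) (hs : s.Prime) (h5 : 5 ≤ r) (hrs : r < s)
    (hn : 1 < n) (hc : ¬ n.Prime) (h : n.totient ∣ n - 1)
    (hS : (n - 1).primeFactors = {2, 3, r, s}) (hr11 : r ≠ 11) (hr23 : r ≠ 23) (hs11 : s ≠ 11)
    (hs23 : s ≠ 23) : False := by
  have hdv : ∀ q ∈ ({2, 3, r, s} : Finset ℕ), q ∣ n - 1 := by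
    intro q hq
    rw [← hS] at hq
    exact Nat.dvd_of_mem_primeFactors hq
  have h3 : 3 ∣ n - 1 := hdv 3 (by simp)
  have hrn : r ∣ n - 1 := hdv r (by simp)
  have hsn : s ∣ n - 1 := hdv s (by simp)
  rcases Nat.lt_or_ge r 131 with h131 | h131
  · obtain ⟨s0, hx⟩ := thr_ex r hr h5 h131 hr11 hr23
    rcases Nat.lt_or_ge s s0 with hlt | hge
    · exact pair_s r s n hr hs h5 hrs hn hc h hS.le h3 hrn hsn
        (thr_row r s0 s hx hs hlt hrs hs11 hs23)
    · exact gen_s r s s0 n hr hs h5 hrs (thr_ge (r, s0) hx) hge hn hc h hS.le h3 hrn (thr_gen (r, s0) hx)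
  · exact big_s r s n hr hs h131 hrs hn hc h hS.le h3

theorem four_pair (n : ℕ) (hn : 1 < n) (hc : ¬ n.Prime) (h : n.totient ∣ n - 1)
    (hcard : (n - 1).primeFactors.card = 4) : 11 ∣ n - 1 ∨ 23 ∣ n - 1 := by
  by_contra hcon
  rw [not_or] at hcon
  obtain ⟨hc11, hc23⟩ := hcon
  obtain ⟨k, hk2, hk, hlt, hD, heven⟩ := lehmer n hn hc h
  have hn1 : n - 1 ≠ 0 := by omega
  have h3 : 3 ∣ n - 1 := by
    by_contra h3
    have := seven n hn hc h h3
    omega
  have m2 : 2 ∈ (n - 1).primeFactors := Nat.mem_primeFactors.2 ⟨Nat.prime_two, heven, hn1⟩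
  have m3 : 3 ∈ (n - 1).primeFactors := Nat.mem_primeFactors.2 ⟨Nat.prime_three, h3, hn1⟩
  have m3' : 3 ∈ (n - 1).primeFactors.erase 2 := Finset.mem_erase.2 ⟨by norm_num, m3⟩
  have hc2 : (((n - 1).primeFactors.erase 2).erase 3).card = 2 := by
    rw [Finset.card_erase_of_mem m3', Finset.card_erase_of_mem m2, hcard]
  obtain ⟨a, b, hab, he⟩ := Finset.card_eq_two.1 hc2
  have hS : (n - 1).primeFactors = {2, 3, a, b} := by
    rw [← Finset.insert_erase m2, ← Finset.insert_erase m3', he]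
  have ha : a ∈ ((n - 1).primeFactors.erase 2).erase 3 := by rw [he]; simp
  have hb : b ∈ ((n - 1).primeFactors.erase 2).erase 3 := by rw [he]; simp
  have hprop : ∀ q ∈ ((n - 1).primeFactors.erase 2).erase 3, q.Prime ∧ 5 ≤ q ∧ q ≠ 11 ∧ q ≠ 23 := by
    intro q hq
    rw [Finset.mem_erase, Finset.mem_erase] at hq
    obtain ⟨hq3, hq2, hqm⟩ := hq
    have hqp := Nat.prime_of_mem_primeFactors hqm
    have hqd := Nat.dvd_of_mem_primeFactors hqm
    refine ⟨hqp, ?_, fun e => hc11 (e ▸ hqd), fun e => hc23 (e ▸ hqd)⟩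
    by_contra hlt
    have h2 := hqp.two_le
    have h4 : q = 4 := by omega
    rw [h4] at hqp
    exact absurd hqp (by norm_num)
  obtain ⟨hap, ha5, ha11, ha23⟩ := hprop a ha
  obtain ⟨hbp, hb5, hb11, hb23⟩ := hprop b hb
  rcases lt_or_gt_of_ne hab with hlt | hlt
  · exact pair_final a b n hap hbp ha5 hlt hn hc h hS ha11 ha23 hb11 hb23
  · refine pair_final b a n hbp hap hb5 hlt hn hc h ?_ hb11 hb23 ha11 ha23
    rw [hS]
    ext q
    simp only [Finset.mem_insert, Finset.mem_singleton]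
    constructor
    · rintro (h | h | h | h)
      · exact Or.inl h
      · exact Or.inr (Or.inl h)
      · exact Or.inr (Or.inr (Or.inr h))
      · exact Or.inr (Or.inr (Or.inl h))
    · rintro (h | h | h | h)
      · exact Or.inl h
      · exact Or.inr (Or.inl h)
      · exact Or.inr (Or.inr (Or.inr h))
      · exact Or.inr (Or.inr (Or.inl h))

end Pool.Agent.W85.Leh
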