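import Pool.Agent.W85.Leh.Core

set_option autoImplicit false

namespace Pool.Agent.W85.Leh

open Finset

/-- Even numbers up to 200 dividing a power of `6 r`. -/
def Ml (r : ℕ) : List ℕ :=
  (List.range 201).filter (fun m => m != 0 && m % 2 == 0 && (6 * r) ^ 8 % m == 0)

/-- Test for a divisor up to 14. -/
def comp (m : ℕ) : Bool := (List.range 15).any (fun d => decide (2 ≤ d) && decide (d < m) && m % d == 0)

/-- Quadratic character condition. -/
def cls (r x y z p : ℕ) : Bool :=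
  (2 ^ ((p - 1) / 2 * x) * 3 ^ ((p - 1) / 2 * y) * r ^ ((p - 1) / 2 * z)) % p ==
    (p - 1) ^ ((p - 1) / 2) % p

/-- Possible primes up to 201. -/
def Ll (r x y z : ℕ) : List ℕ :=
  ((Ml r).map (· + 1)).filter (fun p => !comp p && p != 3 && p != r && cls r x y z p)

/-- The numeric check. -/
def check (r x y z : ℕ) : Bool :=
  decide ((((Ll r x y z).prod) * 1000000000 <
    2 * (1000000000 + ((Ml r).map (fun m => 1000000000 / m)).sum
      - (3 * r * 1000000000 / (2 * (r - 1)) + 1)) * ((Ll r x y z).map (fun p => p - 1)).prod))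

/-- All classes. -/
def checkAll (r : ℕ) : Bool :=
  check r 0 0 0 && check r 0 0 1 && check r 0 1 0 && check r 0 1 1 &&
  check r 1 0 0 && check r 1 0 1 && check r 1 1 0 && check r 1 1 1

theorem checkAll_spec (r : ℕ) (h : checkAll r = true) (x y z : ℕ) (hx : x < 2) (hy : y < 2)
    (hz : z < 2) : check r x y z = true := by
  unfold checkAll at h
  simp only [Bool.and_eq_true] at h
  obtain ⟨⟨⟨⟨⟨⟨⟨h1, h2⟩, h3⟩, h4⟩, h5⟩, h6⟩, h7⟩, h8⟩ := h
  have hx' : x = 0 ∨ x = 1 := by omega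
  have hy' : y = 0 ∨ y = 1 := by omega
  have hz' : z = 0 ∨ z = 1 := by omega
  rcases hx' with rfl | rfl
  · rcases hy' with rfl | rfl
    · rcases hz' with rfl | rfl
      · exact h1
      · exact h2
    · rcases hz' with rfl | rfl
      · exact h3
      · exact h4
  · rcases hy' with rfl | rfl
    · rcases hz' with rfl | rfl
      · exact h5
      · exact h6
    · rcases hz' with rfl | rfl
      · exact h7
      · exact h8

theorem Ml_mem (r m : ℕ) (h : m ∈ Ml r) : m ≤ 200 ∧ m ≠ 0 ∧ 2 ∣ m ∧ m ∣ (6 * r) ^ 8 := by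
  unfold Ml at h
  rw [List.mem_filter, List.mem_range] at h
  simp only [Bool.and_eq_true, bne_iff_ne, beq_iff_eq] at h
  exact ⟨by omega, h.2.1.1, Nat.dvd_of_mod_eq_zero h.2.1.2, Nat.dvd_of_mod_eq_zero h.2.2⟩

theorem pf_sub (r m : ℕ) (hr : r.Prime) (h : m ∣ (6 * r) ^ 8) :
    m.primeFactors ⊆ {2, 3, r} := by
  intro p hp
  have hpp := Nat.prime_of_mem_primeFactors hp
  have h1 : p ∣ (6 * r) ^ 8 := (Nat.dvd_of_mem_primeFactors hp).trans h
  have h2 := hpp.dvd_of_dvd_pow h1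
  rcases (hpp.dvd_mul).1 h2 with h3 | h3
  · have h4 : p ∣ 2 * 3 := h3
    rcases (hpp.dvd_mul).1 h4 with h5 | h5
    · have := (Nat.prime_dvd_prime_iff_eq hpp Nat.prime_two).1 h5
      simp [this]
    · have := (Nat.prime_dvd_prime_iff_eq hpp Nat.prime_three).1 h5
      simp [this]
  · have := (Nat.prime_dvd_prime_iff_eq hpp hr).1 h3
    simp [this]

theorem not_comp (p : ℕ) (hp : p.Prime) : comp p = false := by
  unfold comp
  rw [List.any_eq_false]
  intro d _ h
  simp only [Bool.and_eq_true, decide_eq_true_eq, beq_iff_eq] at h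
  obtain ⟨⟨h1, h2⟩, h3⟩ := h
  have := (Nat.dvd_prime hp).1 (Nat.dvd_of_mod_eq_zero h3)
  omega

theorem pow_red (p : ℕ) [Fact p.Prime] (a : ZMod p) (ha : a ≠ 0) (hodd : (p - 1) / 2 * 2 = p - 1)
    (X : ℕ) : (a ^ ((p - 1) / 2)) ^ X = a ^ ((p - 1) / 2 * (X % 2)) := by
  have h1 : (a ^ ((p - 1) / 2)) ^ 2 = 1 := by
    rw [← pow_mul, hodd]
    exact ZMod.pow_card_sub_one_eq_one ha
  have h2 : X = 2 * (X / 2) + X % 2 := (Nat.div_add_mod X 2).symm
  calc (a ^ ((p - 1) / 2)) ^ X = (a ^ ((p - 1) / 2)) ^ (2 * (X / 2) + X % 2) := by rw [← h2]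
    _ = ((a ^ ((p - 1) / 2)) ^ 2) ^ (X / 2) * (a ^ ((p - 1) / 2)) ^ (X % 2) := by
        rw [pow_add, pow_mul]
    _ = a ^ ((p - 1) / 2 * (X % 2)) := by rw [h1, one_pow, one_mul, ← pow_mul]

theorem cls_of (n r p X Y Z : ℕ) (hn : 1 < n) (hr : r.Prime) (hp : p.Prime) (hpn : p ∣ n)
    (hp2 : p ≠ 2) (hp3 : p ≠ 3) (hpr : p ≠ r) (hfac : n - 1 = 2 ^ X * 3 ^ Y * r ^ Z) :
    cls r (X % 2) (Y % 2) (Z % 2) p = true := by
  have : Fact p.Prime := ⟨hp⟩
  unfold cls
  rw [beq_iff_eq]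
  apply (ZMod.natCast_eq_natCast_iff' _ _ p).1
  have hodd : (p - 1) / 2 * 2 = p - 1 := by
    obtain ⟨j, hj⟩ := hp.odd_of_ne_two hp2
    omega
  have hne : ∀ q : ℕ, q.Prime → p ≠ q → ((q : ℕ) : ZMod p) ≠ 0 := by
    intro q hq hpq h0
    rw [ZMod.natCast_eq_zero_iff] at h0
    exact hpq ((Nat.prime_dvd_prime_iff_eq hp hq).1 h0)
  have e2 : ((2 : ℕ) : ZMod p) ≠ 0 := hne 2 Nat.prime_two hp2
  have e3 : ((3 : ℕ) : ZMod p) ≠ 0 := hne 3 Nat.prime_three hp3
  have er : ((r : ℕ) : ZMod p) ≠ 0 := hne r hr hpr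
  have hm1 : ((p - 1 : ℕ) : ZMod p) = -1 := by
    rw [Nat.cast_sub hp.one_le]
    simp
  have hn1 : ((n - 1 : ℕ) : ZMod p) = -1 := by
    rw [Nat.cast_sub hn.le, (ZMod.natCast_eq_zero_iff n p).2 hpn]
    simp
  have key : (((2 : ℕ) : ZMod p) ^ X * ((3 : ℕ) : ZMod p) ^ Y * ((r : ℕ) : ZMod p) ^ Z) = -1 := by
    rw [← hn1, hfac]
    push_cast
    ring
  have key2 := congrArg (fun u => u ^ ((p - 1) / 2)) key
  simp only [mul_pow] at key2
  rw [← pow_mul, ← pow_mul, ← pow_mul, mul_comm X, mul_comm Y, mul_comm Z, pow_mul, pow_mul,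
    pow_mul, pow_red p _ e2 hodd X, pow_red p _ e3 hodd Y, pow_red p _ er hodd Z] at key2
  rw [Nat.cast_mul, Nat.cast_mul, Nat.cast_pow, Nat.cast_pow, Nat.cast_pow, key2, Nat.cast_pow, hm1]

theorem list_sum_floor (l : List ℕ) (K : ℕ) (hl : ∀ m ∈ l, m ≠ 0) :
    (((l.map (fun m => K / m)).sum : ℕ) : ℝ) ≤ K * (l.map (fun m : ℕ => ((m : ℝ))⁻¹)).sum := by
  induction l with
  | nil => simp
  | cons a l ih =>
    simp only [List.map_cons, List.sum_cons]
    have h1 := ih (fun m hm => hl m (List.mem_cons_of_mem _ hm))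
    have h2 : (((K / a : ℕ)) : ℝ) ≤ (K : ℝ) / a := Nat.cast_div_le
    have h3 : (K : ℝ) / a = K * (a : ℝ)⁻¹ := div_eq_mul_inv _ _
    rw [h3] at h2
    rw [Nat.cast_add, mul_add]
    linarith

theorem list_prod (l : List ℕ) (hl : ∀ p ∈ l, 1 < p) :
    (l.map (fun p : ℕ => (1 + ((p : ℝ) - 1)⁻¹))).prod * (((l.map (fun p => p - 1)).prod : ℕ) : ℝ) =
      ((l.prod : ℕ) : ℝ) := by
  induction l with
  | nil => simp
  | cons a l ih =>
    simp only [List.map_cons, List.prod_cons]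
    have h1 := ih (fun m hm => hl m (List.mem_cons_of_mem _ hm))
    have h2 : 1 < a := hl a (by simp)
    have h3 : (((a - 1 : ℕ)) : ℝ) = (a : ℝ) - 1 := by
      rw [Nat.cast_sub h2.le, Nat.cast_one]
    have h4 : ((a : ℝ) - 1) ≠ 0 := by
      have : (1 : ℝ) < a := by exact_mod_cast h2
      intro h; linarith
    push_cast at h1 ⊢
    rw [h3, ← h1]
    field_simp
    ring

theorem Ml_nodup (r : ℕ) : (Ml r).Nodup := List.Nodup.filter _ List.nodup_range

theorem Ll_nodup (r x y z : ℕ) : (Ll r x y z).Nodup := by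
  apply List.Nodup.filter
  exact (Ml_nodup r).map (fun a b h => by simpa using h)

theorem arith0 (K A B c S t : ℝ) (hA : A ≤ K * S) (hB : K * c ≤ B) (ht : t = c - S) :
    K + A - B ≤ K * (1 - t) := by
  have e : K * (1 - t) = K - K * c + K * S := by rw [ht]; ring
  rw [e]; linarith

theorem arith1 (K t one : ℝ) (hK : 0 < K) (h : 0 < K * (one - t)) : t < one := by
  by_contra hcon
  have h1 : one ≤ t := not_lt.1 hcon
  have : K * (one - t) ≤ 0 := by nlinarith
  linarith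

theorem arith2 (P Q PL K C t k pr : ℝ) (hK : 0 < K) (hQ : 0 ≤ Q) (hPQ : P * Q = PL)
    (h1 : PL * K < 2 * C * Q) (hC : C ≤ K * (1 - t)) (ht : t < 1) (hle : pr ≤ P / (1 - t))
    (hk : 2 ≤ k) (hlt : k < pr) : False := by
  have hP2 : P * K < 2 * C := by
    by_contra hcon
    have h7 : 2 * C * Q ≤ P * K * Q := mul_le_mul_of_nonneg_right (not_lt.1 hcon) hQ
    rw [← hPQ] at h1
    have h8 : P * K * Q = P * Q * K := by ring
    linarith
  have h3 : P * K < 2 * (1 - t) * K := by nlinarith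
  have h4 : P < 2 * (1 - t) := lt_of_mul_lt_mul_right h3 hK.le
  have h5 : P / (1 - t) < 2 := by
    rw [div_lt_iff₀ (by linarith)]
    exact h4
  linarith

theorem small_r (r n : ℕ) (hr : r.Prime) (h5 : 5 ≤ r) (hn : 1 < n) (hc : ¬ n.Prime)
    (h : n.totient ∣ n - 1) (hS : (n - 1).primeFactors ⊆ {2, 3, r}) (h3 : 3 ∣ n - 1)
    (hrn : r ∣ n - 1) (hchk : checkAll r = true) : False := by
  obtain ⟨k, hk2, hk, hlt, hD, heven⟩ := lehmer n hn hc h
  have hn1 : n - 1 ≠ 0 := by omega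
  have h23 : (2 : ℕ) ≠ 3 := by norm_num
  have h2r : (2 : ℕ) ≠ r := by omega
  have h3r : (3 : ℕ) ≠ r := by omega
  -- factorization
  obtain ⟨X, Y, Z, hfac⟩ : ∃ X Y Z : ℕ, n - 1 = 2 ^ X * 3 ^ Y * r ^ Z := by
    refine ⟨(n - 1).factorization 2, (n - 1).factorization 3, (n - 1).factorization r, ?_⟩
    have e := Nat.prod_factorization_pow_eq_self hn1
    rw [Finsupp.prod_of_support_subset _ (s := {2, 3, r}) (by simpa using hS) _ (by simp)] at e
    rw [Finset.prod_insert (by simp [h2r]), Finset.prod_insert (by simp [h3r]),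
      Finset.prod_singleton] at e
    rw [mul_assoc]
    exact e.symm
  have hcheck := checkAll_spec r hchk (X % 2) (Y % 2) (Z % 2) (Nat.mod_lt _ (by norm_num))
    (Nat.mod_lt _ (by norm_num)) (Nat.mod_lt _ (by norm_num))
  set x := X % 2 with hx
  set y := Y % 2 with hy
  set z := Z % 2 with hz
  have hLmem : ∀ p ∈ Ll r x y z, 1 < p := by
    intro p hp
    unfold Ll at hp
    have hp1 := (List.mem_filter.1 hp).1
    rw [List.mem_map] at hp1
    obtain ⟨m, hm, rfl⟩ := hp1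
    have := (Ml_mem r m hm).2.1
    omega
  unfold check at hcheck
  rw [decide_eq_true_eq] at hcheck
  set K : ℕ := 1000000000 with hK
  set A : ℕ := ((Ml r).map (fun m => K / m)).sum with hA
  set B : ℕ := 3 * r * K / (2 * (r - 1)) + 1 with hB
  set PL : ℕ := (Ll r x y z).prod with hPL
  set QL : ℕ := ((Ll r x y z).map (fun p => p - 1)).prod with hQL
  have hQpos : 0 < K + A - B := by
    rcases Nat.eq_zero_or_pos (K + A - B) with h0 | h0
    · rw [h0] at hcheck; simp at hcheck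
    · exact h0
  have hKpos : (0 : ℝ) < K := by rw [hK]; norm_num
  have hCreal : ((K + A - B : ℕ) : ℝ) = (K : ℝ) + A - B := by
    rw [Nat.cast_sub (by omega)]; push_cast; ring
  have hrr : (1 : ℝ) < r := by exact_mod_cast hr.one_lt
  -- tail
  set Sig : ℝ := ∑ m ∈ (Ml r).toFinset, ((m : ℝ))⁻¹ with hSig
  have hSig2 : Sig = ((Ml r).map (fun m : ℕ => ((m : ℝ))⁻¹)).sum := by
    rw [hSig, List.sum_toFinset _ (Ml_nodup r)]
  have hAle : (A : ℝ) ≤ K * Sig := by
    rw [hSig2]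
    exact list_sum_floor (Ml r) K (fun m hm => (Ml_mem r m hm).2.1)
  have hBge : (K : ℝ) * (3 * r / (2 * (r - 1))) ≤ B := by
    have hd : 0 < 2 * (r - 1) := by omega
    have h1 := Nat.lt_mul_div_succ (3 * r * K) hd
    rw [← hB] at h1
    have h2 : ((3 * r * K : ℕ) : ℝ) < ((2 * (r - 1) * B : ℕ) : ℝ) := by exact_mod_cast h1
    rw [Nat.cast_mul, Nat.cast_mul, Nat.cast_mul, Nat.cast_mul, Nat.cast_sub hr.one_le] at h2
    push_cast at h2
    have h4 : (0 : ℝ) < 2 * (r - 1) := by linarith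
    rw [← mul_div_assoc, div_le_iff₀ h4]
    nlinarith
  have hCpos : (0 : ℝ) < (K : ℝ) + A - B := by
    rw [← hCreal]; exact_mod_cast hQpos
  set t : ℝ := 3 * r / (2 * (r - 1)) - Sig with ht
  have hKt : (K : ℝ) + A - B ≤ K * (1 - t) := arith0 _ _ _ _ _ _ hAle hBge ht
  have ht1 : t < 1 := arith1 _ _ _ hKpos (lt_of_lt_of_le hCpos hKt)
  have hcore := core {2, 3, r} n.primeFactors (Ml r).toFinset (Ll r x y z).toFinset
    (by
      intro q hq
      simp only [Finset.mem_insert, Finset.mem_singleton] at hq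
      rcases hq with rfl | rfl | rfl
      · exact Nat.prime_two
      · exact Nat.prime_three
      · exact hr)
    (fun p hp => ⟨(hD p hp).1, (hD p hp).2.1, (hD p hp).2.2.1, (hD p hp).2.2.2.trans hS⟩)
    (by
      intro m hm
      rw [List.mem_toFinset] at hm
      obtain ⟨_, h0, h2, hdv⟩ := Ml_mem r m hm
      exact ⟨h0, h2, pf_sub r m hr hdv⟩)
    (by
      intro p hp
      rw [List.mem_toFinset] at hp
      exact hLmem p hp)
    (by
      intro p hp hpM
      rw [List.mem_toFinset] at hpM ⊢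
      have hpp := (hD p hp).1
      have hpn := Nat.dvd_of_mem_primeFactors hp
      have hp1 := hpp.one_lt
      have hp2 : p ≠ 2 := fun e => not_both n p hn hpp hpn (e ▸ heven)
      have hp3 : p ≠ 3 := fun e => not_both n p hn hpp hpn (e ▸ h3)
      have hpr : p ≠ r := fun e => not_both n p hn hpp hpn (e ▸ hrn)
      unfold Ll
      rw [List.mem_filter, List.mem_map]
      refine ⟨⟨p - 1, hpM, by omega⟩, ?_⟩
      rw [not_comp p hpp, cls_of n r p X Y Z hn hr hpp hpn hp2 hp3 hpr hfac]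
      simp [hp3, hpr])
    t ht1
    (by
      rw [Finset.prod_insert (by simp [h2r]), Finset.prod_insert (by simp [h3r]),
        Finset.prod_singleton, ht, ← hSig]
      have e : ((1 - ((2 : ℕ) : ℝ)⁻¹)⁻¹ * ((1 - ((3 : ℕ) : ℝ)⁻¹)⁻¹ * (1 - (r : ℝ)⁻¹)⁻¹)) / 2 =
          3 * r / (2 * (r - 1)) := by
        have e1 : (r : ℝ) - 1 ≠ 0 := by intro h; linarith
        have e2 : (r : ℝ) ≠ 0 := by intro h; linarith
        have e3 : (1 - (r : ℝ)⁻¹) = (r - 1) / r := by field_simp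
        rw [e3]
        push_cast
        field_simp
        norm_num
      rw [e])
  rw [List.prod_toFinset _ (Ll_nodup r x y z)] at hcore
  set P : ℝ := ((Ll r x y z).map (fun p : ℕ => (1 + ((p : ℝ) - 1)⁻¹))).prod with hP
  have hPQ : P * (QL : ℝ) = (PL : ℝ) := list_prod (Ll r x y z) hLmem
  have hcheck2 : (PL : ℝ) * K < 2 * ((K : ℝ) + A - B) * QL := by
    rw [← hCreal]
    exact_mod_cast hcheck
  have hQ0 : (0 : ℝ) ≤ QL := Nat.cast_nonneg _
  have hk2' : (2 : ℝ) ≤ k := by exact_mod_cast hk2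
  exact arith2 P QL PL K ((K : ℝ) + A - B) t k _ hKpos hQ0 hPQ hcheck2 hKt ht1 hcore hk2' hlt

end Pool.Agent.W85.Leh
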