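import Pool.Agent.W85.Leh.Core

set_option autoImplicit false

namespace Pool.Agent.W85.Leh

open Finset

theorem f_anti (a q : ℕ) (ha : 2 ≤ a) (h : a ≤ q) : (1 - (q : ℝ)⁻¹)⁻¹ ≤ (1 - (a : ℝ)⁻¹)⁻¹ := by
  have h1 : (2 : ℝ) ≤ a := by exact_mod_cast ha
  have h2 : (a : ℝ) ≤ q := by exact_mod_cast h
  have h3 : (q : ℝ)⁻¹ ≤ (a : ℝ)⁻¹ := inv_anti₀ (by linarith) h2
  have h4 : (a : ℝ)⁻¹ ≤ 2⁻¹ := inv_anti₀ (by norm_num) h1
  exact inv_anti₀ (by linarith [h4]) (by linarith)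

theorem f_one (a : ℕ) (ha : 2 ≤ a) : 1 ≤ (1 - (a : ℝ)⁻¹)⁻¹ := by
  have h1 : (2 : ℝ) ≤ a := by exact_mod_cast ha
  have h4 : (a : ℝ)⁻¹ ≤ 2⁻¹ := inv_anti₀ (by norm_num) h1
  have h5 : 0 ≤ (a : ℝ)⁻¹ := by positivity
  apply (one_le_inv₀ (by linarith)).2
  linarith

/-- One step of the bound for products over few primes. -/
theorem stepT (lo a : ℕ) (A : Finset ℕ) (c : ℝ) (hc : 0 ≤ c) (ha : 2 ≤ a)
    (hA : ∀ q, q.Prime → lo ≤ q → q < a → q ∈ A)
    (h : ∀ S : Finset ℕ, (∀ q ∈ S, q.Prime ∧ lo ≤ q) → S.card ≤ A.card →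
      ∏ q ∈ S, (1 - (q : ℝ)⁻¹)⁻¹ ≤ c) :
    ∀ S : Finset ℕ, (∀ q ∈ S, q.Prime ∧ lo ≤ q) → S.card ≤ A.card + 1 →
      ∏ q ∈ S, (1 - (q : ℝ)⁻¹)⁻¹ ≤ c * (1 - (a : ℝ)⁻¹)⁻¹ := by
  intro S hS hcard
  have hfa := f_one a ha
  rcases Nat.lt_or_ge A.card S.card with h1 | h1
  · have hne : S.Nonempty := Finset.card_pos.1 (by omega)
    set q := S.max' hne with hq
    have hqS : q ∈ S := S.max'_mem hne
    have haq : a ≤ q := by
      by_contra hcon
      have hsub : S ⊆ A := by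
        intro x hx
        have hxq : x ≤ q := S.le_max' x hx
        exact hA x (hS x hx).1 (hS x hx).2 (by omega)
      have := Finset.card_le_card hsub
      omega
    rw [← Finset.mul_prod_erase S _ hqS, mul_comm]
    have h2 := h (S.erase q) (fun x hx => hS x (Finset.mem_of_mem_erase hx))
      (by rw [Finset.card_erase_of_mem hqS]; omega)
    have h3 := f_anti a q ha haq
    have h4 : 0 ≤ (1 - (q : ℝ)⁻¹)⁻¹ := by
      have := f_one q (hS q hqS).1.two_le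
      linarith
    exact mul_le_mul h2 h3 h4 hc
  · have h2 := h S hS h1
    nlinarith

theorem baseT (lo : ℕ) : ∀ S : Finset ℕ, (∀ q ∈ S, q.Prime ∧ lo ≤ q) → S.card ≤ (∅ : Finset ℕ).card →
      ∏ q ∈ S, (1 - (q : ℝ)⁻¹)⁻¹ ≤ 1 := by
  intro S _ h
  have : S = ∅ := by
    rw [Finset.card_empty] at h
    exact Finset.card_eq_zero.1 (by omega)
  subst this
  simp

theorem T5 (S : Finset ℕ) (hS : ∀ q ∈ S, q.Prime ∧ 5 ≤ q) (hc : S.card ≤ 5) :
    ∏ q ∈ S, (1 - (q : ℝ)⁻¹)⁻¹ ≤ 17017 / 9216 := by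
  have h1 : ∀ S : Finset ℕ, (∀ q ∈ S, q.Prime ∧ 5 ≤ q) → S.card ≤ 1 →
      ∏ q ∈ S, (1 - (q : ℝ)⁻¹)⁻¹ ≤ 5 / 4 := by
    intro S hS hc
    have e := stepT 5 5 (∅ : Finset ℕ) (1 / 1) (by norm_num) (by norm_num)
      (by intro q hq h1 h2; omega)
      (by intro S hS hc; simpa using baseT 5 S hS hc) S hS (by simpa using hc)
    refine e.trans ?_
    norm_num
  have h2 : ∀ S : Finset ℕ, (∀ q ∈ S, q.Prime ∧ 5 ≤ q) → S.card ≤ 2 →
      ∏ q ∈ S, (1 - (q : ℝ)⁻¹)⁻¹ ≤ 35 / 24 := by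
    intro S hS hc
    have e := stepT 5 7 ({5} : Finset ℕ) (5 / 4) (by norm_num) (by norm_num)
      (by intro q hq h1 h2; interval_cases q <;> first | decide | (exfalso; revert hq; norm_num))
      (by intro S hS hc; exact h1 S hS (by simpa using hc)) S hS (by simpa using hc)
    refine e.trans ?_
    norm_num
  have h3 : ∀ S : Finset ℕ, (∀ q ∈ S, q.Prime ∧ 5 ≤ q) → S.card ≤ 3 →
      ∏ q ∈ S, (1 - (q : ℝ)⁻¹)⁻¹ ≤ 77 / 48 := by
    intro S hS hc
    have e := stepT 5 11 ({5, 7} : Finset ℕ) (35 / 24) (by norm_num) (by norm_num)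
      (by intro q hq h1 h2; interval_cases q <;> first | decide | (exfalso; revert hq; norm_num))
      (by intro S hS hc; exact h2 S hS (by simpa using hc)) S hS (by simpa using hc)
    refine e.trans ?_
    norm_num
  have h4 : ∀ S : Finset ℕ, (∀ q ∈ S, q.Prime ∧ 5 ≤ q) → S.card ≤ 4 →
      ∏ q ∈ S, (1 - (q : ℝ)⁻¹)⁻¹ ≤ 1001 / 576 := by
    intro S hS hc
    have e := stepT 5 13 ({5, 7, 11} : Finset ℕ) (77 / 48) (by norm_num) (by norm_num)
      (by intro q hq h1 h2; interval_cases q <;> first | decide | (exfalso; revert hq; norm_num))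
      (by intro S hS hc; exact h3 S hS (by simpa using hc)) S hS (by simpa using hc)
    refine e.trans ?_
    norm_num
  have h5 : ∀ S : Finset ℕ, (∀ q ∈ S, q.Prime ∧ 5 ≤ q) → S.card ≤ 5 →
      ∏ q ∈ S, (1 - (q : ℝ)⁻¹)⁻¹ ≤ 17017 / 9216 := by
    intro S hS hc
    have e := stepT 5 17 ({5, 7, 11, 13} : Finset ℕ) (1001 / 576) (by norm_num) (by norm_num)
      (by intro q hq h1 h2; interval_cases q <;> first | decide | (exfalso; revert hq; norm_num))
      (by intro S hS hc; exact h4 S hS (by simpa using hc)) S hS (by simpa using hc)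
    refine e.trans ?_
    norm_num
  exact h5 S hS hc

theorem T7 (S : Finset ℕ) (hS : ∀ q ∈ S, q.Prime ∧ 7 ≤ q) (hc : S.card ≤ 5) :
    ∏ q ∈ S, (1 - (q : ℝ)⁻¹)⁻¹ ≤ 323323 / 207360 := by
  have h1 : ∀ S : Finset ℕ, (∀ q ∈ S, q.Prime ∧ 7 ≤ q) → S.card ≤ 1 →
      ∏ q ∈ S, (1 - (q : ℝ)⁻¹)⁻¹ ≤ 7 / 6 := by
    intro S hS hc
    have e := stepT 7 7 (∅ : Finset ℕ) (1 / 1) (by norm_num) (by norm_num)
      (by intro q hq h1 h2; omega)
      (by intro S hS hc; simpa using baseT 7 S hS hc) S hS (by simpa using hc)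
    refine e.trans ?_
    norm_num
  have h2 : ∀ S : Finset ℕ, (∀ q ∈ S, q.Prime ∧ 7 ≤ q) → S.card ≤ 2 →
      ∏ q ∈ S, (1 - (q : ℝ)⁻¹)⁻¹ ≤ 77 / 60 := by
    intro S hS hc
    have e := stepT 7 11 ({7} : Finset ℕ) (7 / 6) (by norm_num) (by norm_num)
      (by intro q hq h1 h2; interval_cases q <;> first | decide | (exfalso; revert hq; norm_num))
      (by intro S hS hc; exact h1 S hS (by simpa using hc)) S hS (by simpa using hc)
    refine e.trans ?_
    norm_num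
  have h3 : ∀ S : Finset ℕ, (∀ q ∈ S, q.Prime ∧ 7 ≤ q) → S.card ≤ 3 →
      ∏ q ∈ S, (1 - (q : ℝ)⁻¹)⁻¹ ≤ 1001 / 720 := by
    intro S hS hc
    have e := stepT 7 13 ({7, 11} : Finset ℕ) (77 / 60) (by norm_num) (by norm_num)
      (by intro q hq h1 h2; interval_cases q <;> first | decide | (exfalso; revert hq; norm_num))
      (by intro S hS hc; exact h2 S hS (by simpa using hc)) S hS (by simpa using hc)
    refine e.trans ?_
    norm_num
  have h4 : ∀ S : Finset ℕ, (∀ q ∈ S, q.Prime ∧ 7 ≤ q) → S.card ≤ 4 →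
      ∏ q ∈ S, (1 - (q : ℝ)⁻¹)⁻¹ ≤ 17017 / 11520 := by
    intro S hS hc
    have e := stepT 7 17 ({7, 11, 13} : Finset ℕ) (1001 / 720) (by norm_num) (by norm_num)
      (by intro q hq h1 h2; interval_cases q <;> first | decide | (exfalso; revert hq; norm_num))
      (by intro S hS hc; exact h3 S hS (by simpa using hc)) S hS (by simpa using hc)
    refine e.trans ?_
    norm_num
  have h5 : ∀ S : Finset ℕ, (∀ q ∈ S, q.Prime ∧ 7 ≤ q) → S.card ≤ 5 →
      ∏ q ∈ S, (1 - (q : ℝ)⁻¹)⁻¹ ≤ 323323 / 207360 := by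
    intro S hS hc
    have e := stepT 7 19 ({7, 11, 13, 17} : Finset ℕ) (17017 / 11520) (by norm_num) (by norm_num)
      (by intro q hq h1 h2; interval_cases q <;> first | decide | (exfalso; revert hq; norm_num))
      (by intro S hS hc; exact h4 S hS (by simpa using hc)) S hS (by simpa using hc)
    refine e.trans ?_
    norm_num
  exact h5 S hS hc

theorem exp_small : Real.exp (23 / 50) < 8 / 5 := by
  by_contra hcon
  have h1 : (8 / 5 : ℝ) ≤ Real.exp (23 / 50) := not_lt.1 hcon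
  have h2 : (8 / 5 : ℝ) ^ 50 ≤ Real.exp (23 / 50) ^ 50 := pow_le_pow_left₀ (by norm_num) h1 50
  have h3 : Real.exp (23 / 50) ^ 50 = Real.exp 1 ^ 23 := by
    rw [← Real.exp_nat_mul, ← Real.exp_nat_mul]
    norm_num
  have h4 : Real.exp 1 ^ 23 ≤ 2.7182818286 ^ 23 :=
    pow_le_pow_left₀ (Real.exp_pos 1).le Real.exp_one_lt_d9.le 23
  rw [h3] at h2
  have h5 := h2.trans h4
  norm_num at h5

/-- Sum over the primes `≡ 2 mod 3`, `≠ 5`. -/
theorem sum3 (S D : Finset ℕ) (hS : ∀ q ∈ S, q.Prime) (h2 : 2 ∈ S)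
    (hD : ∀ p ∈ D, p.Prime ∧ p - 1 ≠ 0 ∧ 2 ∣ p - 1 ∧ (p - 1).primeFactors ⊆ S ∧ p % 3 = 2 ∧ p ≠ 5) :
    ∑ p ∈ D, ((p : ℝ) - 1)⁻¹ ≤ 2 / 3 * ((∏ q ∈ S, (1 - (q : ℝ)⁻¹)⁻¹) / 2 - 7 / 8) := by
  classical
  have hpf : ∀ j : ℕ, ((2 : ℕ) ^ j).primeFactors ⊆ S := by
    intro j q hq
    have h1 := Nat.prime_of_mem_primeFactors hq
    have h3 := h1.dvd_of_dvd_pow (Nat.dvd_of_mem_primeFactors hq)
    rw [(Nat.prime_dvd_prime_iff_eq h1 Nat.prime_two).1 h3]
    exact h2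
  have hmain := sum_inv_even_le S
    ((D.image (fun p => p - 1) ∪ D.image (fun p => 2 * (p - 1))) ∪ ({2, 4, 8} : Finset ℕ)) hS (by
      intro m hm
      rw [Finset.mem_union, Finset.mem_union, Finset.mem_image, Finset.mem_image] at hm
      rcases hm with (⟨p, hp, rfl⟩ | ⟨p, hp, rfl⟩) | hm
      · exact ⟨(hD p hp).2.1, (hD p hp).2.2.1, (hD p hp).2.2.2.1⟩
      · refine ⟨by have := (hD p hp).2.1; omega, dvd_mul_right 2 _, ?_⟩
        intro q hq
        have h1 := Nat.prime_of_mem_primeFactors hq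
        have h3 := Nat.dvd_of_mem_primeFactors hq
        rcases (h1.dvd_mul).1 h3 with h4 | h4
        · rw [(Nat.prime_dvd_prime_iff_eq h1 Nat.prime_two).1 h4]
          exact h2
        · exact (hD p hp).2.2.2.1 (Nat.mem_primeFactors.2 ⟨h1, h4, (hD p hp).2.1⟩)
      · simp only [Finset.mem_insert, Finset.mem_singleton] at hm
        rcases hm with rfl | rfl | rfl
        · exact ⟨by norm_num, by norm_num, by simpa using hpf 1⟩
        · exact ⟨by norm_num, by norm_num, by simpa using hpf 2⟩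
        · exact ⟨by norm_num, by norm_num, by simpa using hpf 3⟩)
  rw [Finset.sum_union, Finset.sum_union, Finset.sum_image, Finset.sum_image] at hmain
  · have h3 : ∑ p ∈ D, (((p - 1 : ℕ) : ℝ))⁻¹ = ∑ p ∈ D, ((p : ℝ) - 1)⁻¹ := by
      apply Finset.sum_congr rfl
      intro p hp
      have := (hD p hp).1.one_le
      push_cast [this]
      rfl
    have h4 : ∑ p ∈ D, (((2 * (p - 1) : ℕ) : ℝ))⁻¹ = 1 / 2 * ∑ p ∈ D, ((p : ℝ) - 1)⁻¹ := by
      rw [Finset.mul_sum]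
      apply Finset.sum_congr rfl
      intro p hp
      have := (hD p hp).1.one_le
      push_cast [this]
      rw [mul_inv]
      ring
    have h5 : ∑ m ∈ ({2, 4, 8} : Finset ℕ), ((m : ℝ))⁻¹ = 7 / 8 := by
      rw [Finset.sum_insert (by decide), Finset.sum_insert (by decide), Finset.sum_singleton]
      norm_num
    rw [h3, h4, h5] at hmain
    linarith
  · intro x hx y hy hxy
    have h1 := (hD x hx).1.one_le
    have h2 := (hD y hy).1.one_le
    have hxy' : 2 * (x - 1) = 2 * (y - 1) := hxy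
    omega
  · intro x hx y hy hxy
    have h1 := (hD x hx).1.one_le
    have h2 := (hD y hy).1.one_le
    have hxy' : x - 1 = y - 1 := hxy
    omega
  · rw [Finset.disjoint_left]
    intro m hm hm'
    rw [Finset.mem_image] at hm hm'
    obtain ⟨p, hp, rfl⟩ := hm
    obtain ⟨q, hq, hpq⟩ := hm'
    have h1 := (hD p hp).2.2.2.2.1
    have h2 := (hD q hq).2.2.2.2.1
    omega
  · rw [Finset.disjoint_left]
    intro m hm hm'
    rw [Finset.mem_union, Finset.mem_image, Finset.mem_image] at hm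
    simp only [Finset.mem_insert, Finset.mem_singleton] at hm'
    rcases hm with ⟨p, hp, rfl⟩ | ⟨p, hp, rfl⟩
    · have h1 := (hD p hp).2.2.2.2.1
      have h6 := (hD p hp).2.2.2.2.2
      omega
    · have h1 := (hD p hp).2.2.2.2.1
      have h6 := (hD p hp).2.2.2.2.2
      have h7 := (hD p hp).2.2.1
      have h8 := (hD p hp).2.1
      omega

end Pool.Agent.W85.Leh
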